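import Pool.Agent.Work.MP_8f87b2_h27.Ed
import Pool.Agent.Work.MP_8f87b2_h13.R3E
import Pool.Agent.Work.MP_8f87b2_h71ae.AEG
import Pool.Agent.Work.MP_8f87b2_h71.NatHost
import Pool.Agent.Work.MP_8f87b2_h62.W3d

/-!
# MP_8f87b2_co: E triples over DEEP words (type `Ed`) against the windows A0, B0, T and the windows A with `a = 0` (helper29)

`aw_deep`, `W_deep`: for `X` without a part 2, 3 only the words 1, 2, 3 (`X = Q()R`) and, `B = e`, 11, 14, 18 (`X = S()Q`) of a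
window are words of the E triple over `X`, both for `q ≥ 3`; and for `q = 0` the words 18, 19 if `cont B = {3}`, `3` is not a part
of `S`.
`NodeM.disj_Ed`, `TyA0.disj_Ed`, `TyB0.disj_Ed`, `NodeG.disj_Ed`, `TyA.disj_Ed`, `dj_EdT`; inner words: `NodeM.not_Ed`.
-/

set_option autoImplicit false
set_option linter.all false

namespace Pool.OddHC

open Finset Equiv BinaryTree Pool.Agent.Work.MP_8f87b2_co HM

variable {k : ℕ} {F F' : Set (Cyc k)} {g g' : DG k} {d q : ℕ} {R B S X : BinaryTree Unit}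

/-- the words of a deep E triple -/
theorem TyEd.data3 (h : TyEd F g) : ∃ X : BinaryTree Unit, X ≠ .nil ∧ 2 ∉ cont X ∧ 3 ∉ cont X ∧
    IsTri .nil X .nil F g := by
  obtain ⟨j, r, f, hj, hD, ht⟩ := h
  have hl : (lf f).length = 2 * r.1.numNodes + 1 := by rw [lf_length, X_num]
  refine ⟨ins r.1 (lf f), ?_, ?_, ?_, ht⟩
  · intro e
    apply ht.new_ne
    rw [e]
  · rw [← Multiset.count_eq_zero, H1.count_ins hl 0]
    exact hD.1
  · rw [← Multiset.count_eq_zero, H1.count_ins hl 1]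
    exact hD.2

theorem raise_B3 {M : Multiset ℕ} (h : 3 ∈ M) (hM : ∀ x ∈ M, 3 ≤ x) (hne : M ≠ {3}) : 3 ∈ raise M := by
  by_cases h4 : (3 : ℕ) = M.sup
  · unfold raise
    apply Multiset.mem_cons_of_mem
    rw [← h4]
    obtain ⟨M', hM'⟩ := Multiset.exists_cons_of_mem h
    rw [hM', Multiset.erase_cons_head]
    have h5 : M' ≠ 0 := by
      rintro rfl
      exact hne hM'
    obtain ⟨x, hx⟩ := Multiset.exists_mem_of_ne_zero h5
    have h6 : x ∈ M := by rw [hM']; exact Multiset.mem_cons_of_mem hx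
    have h7 := hM x h6
    have h8 := Multiset.le_sup h6
    rw [← h4] at h8
    have h9 : x = 3 := le_antisymm h8 h7
    rwa [h9] at hx
  · exact mem_raise h h4

/-- small `Q` is not in a deep word -/
theorem deep_q (h2 : 2 ∉ cont X) (h3 : 3 ∉ cont X) (h4 : d + 1 ∈ cont X) (h5 : d = 0 → 3 ∈ cont X) : 3 ≤ d := by
  by_contra hlt
  have h6 : d = 0 ∨ d = 1 ∨ d = 2 := by omega
  rcases h6 with h | h | h
  · exact h3 (h5 h)
  · rw [h] at h4; exact h2 h4
  · rw [h] at h4; exact h3 h4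

/-- **a mirrored bare window against a deep E triple** -/
theorem aw_deep (g : A0D d R B S) (hX : X ≠ .nil) (h2 : 2 ∉ cont X) (h3 : 3 ∉ cont X) {i : ℕ} (hi : i < 20)
    (e : aw R (pc (d + 1)) B S i = w1 .nil X .nil ∨ aw R (pc (d + 1)) B S i = w1 X .nil .nil ∨
      aw R (pc (d + 1)) B S i = w1 .nil .nil X) :
    (3 ≤ d ∧ X = app (pc (d + 1)) (.nil △ R) ∧ (i = 1 ∨ i = 2 ∨ i = 3)) ∨
    (3 ≤ d ∧ B = .nil ∧ X = app S (.nil △ pc (d + 1)) ∧ (i = 11 ∨ i = 14 ∨ i = 18)) ∨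
    (d = 0 ∧ cont B = {3} ∧ 3 ∉ cont S ∧ ((i = 18 ∧ X = B △ app S (.nil △ .nil)) ∨
      (i = 19 ∧ X = (B △ S) △ .nil))) := by
  have key : (((i = 1 ∨ i = 2 ∨ i = 3) ∧ X = app (pc (d + 1)) (.nil △ R)) ∨
      (B = .nil ∧ (i = 11 ∨ i = 14 ∨ i = 18) ∧ X = app S (.nil △ pc (d + 1))) ∨
      (d = 0 ∧ ((i = 2 ∧ X = .nil △ app R (.nil △ .nil)) ∨ (i = 7 ∧ X = app R (.nil △ .nil) △ .nil) ∨
        (i = 8 ∧ X = R △ (.nil △ .nil)) ∨ (i = 9 ∧ X = (R △ .nil) △ .nil) ∨
        (i = 12 ∧ X = .nil △ app B (S △ .nil)) ∨ (i = 17 ∧ X = app B (S △ .nil) △ .nil) ∨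
        (i = 18 ∧ X = B △ app S (.nil △ .nil)) ∨ (i = 19 ∧ X = (B △ S) △ .nil)))) := by
    rcases e with e | e | e
    · exact aw_E g hi hX e
    · exact aw_E1 g hi hX e
    · exact aw_E2 g hi hX e
  rcases key with ⟨hi', h⟩ | ⟨hB, hi', h⟩ | ⟨hd, h⟩
  · left
    refine ⟨deep_q h2 h3 ?_ ?_, h, hi'⟩
    · rw [h, cont_app, cont_pc]
      exact Multiset.mem_add.2 (Or.inl (Multiset.mem_singleton_self _))
    · intro hd
      rw [h, cont_app, cont_node, Multiset.mem_add, Multiset.mem_add]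
      refine Or.inr (Or.inr ?_)
      have := g.memw.resolve_right fun g1 => absurd g1.1 (by omega)
      rwa [hd] at this
  · right; left
    refine ⟨deep_q h2 h3 ?_ ?_, hB, h, hi'⟩
    · rw [h, cont_app, cont_node, cont_pc, Multiset.mem_add, Multiset.mem_add]
      exact Or.inr (Or.inr (Multiset.mem_singleton_self _))
    · intro hd
      rw [h, cont_app, Multiset.mem_add]
      left
      have h5 := g.memw.resolve_right fun g1 => absurd g1.1 (by omega)
      rw [← g.eq, hB, cont_nil, zero_add, hd] at h5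
      exact h5
  · subst hd
    have hR := g.top
    have hS : 0 + 3 < ht S := by rw [g.hS]; exact hR
    have hR3 : 3 ≠ (cont R).sup := by rw [← ht_eq]; omega
    have hS3 : 3 ≠ (cont S).sup := by rw [← ht_eq]; omega
    have m0 : 3 ∈ cont R := g.mem
    have m1 : 3 ∈ raise (cont R) := mem_raise m0 hR3
    have hBS : 3 ∈ cont B ∨ 3 ∈ cont S := by
      have := m0
      rw [← g.eq, Multiset.mem_add] at this
      exact this
    have m2 : 3 ∈ cont B + raise (cont S) := by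
      rw [Multiset.mem_add]
      exact hBS.imp_right fun h => mem_raise h hS3
    have m3 : 3 ∈ raise (cont B) + cont S ∨ (cont B = {3} ∧ 3 ∉ cont S) := by
      by_cases h5 : 3 ∈ cont S
      · exact Or.inl (Multiset.mem_add.2 (Or.inr h5))
      · have h6 : 3 ∈ cont B := hBS.resolve_right h5
        by_cases h7 : cont B = {3}
        · exact Or.inr ⟨h7, h5⟩
        · exact Or.inl (Multiset.mem_add.2 (Or.inl (raise_B3 h6 g.hvB h7)))
    rcases h with ⟨hi', h⟩ | ⟨hi', h⟩ | ⟨hi', h⟩ | ⟨hi', h⟩ | ⟨hi', h⟩ | ⟨hi', h⟩ | ⟨hi', h⟩ | ⟨hi', h⟩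
    · exfalso
      apply h3
      rw [h, cont_node, cont_app]
      exact Multiset.mem_add.2 (Or.inr (Multiset.mem_add.2 (Or.inl m0)))
    · exfalso
      apply h3
      rw [h, cont_node, cont_nil, add_zero, cont_app]
      refine mem_raise (Multiset.mem_add.2 (Or.inl m0)) ?_
      rw [sup_add', ← ht_eq]
      omega
    · exfalso
      apply h3
      rw [h, cont_node]
      exact Multiset.mem_add.2 (Or.inl m1)
    · exfalso
      apply h3
      rw [h, cont_node, cont_nil, add_zero, cont_node, cont_nil, add_zero]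
      refine mem_raise m1 ?_
      rw [sup_raise, ← ht_eq]
      omega
    · exfalso
      apply h3
      rw [h, cont_node, cont_app, cont_node, cont_nil, add_zero]
      exact Multiset.mem_add.2 (Or.inr m2)
    · exfalso
      apply h3
      rw [h, cont_node, cont_nil, add_zero, cont_app, cont_node, cont_nil, add_zero]
      refine mem_raise m2 ?_
      rw [sup_add', sup_raise, ← ht_eq, ← ht_eq]
      omega
    · rcases m3 with m3 | ⟨m3, m4⟩
      · exfalso
        apply h3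
        rw [h, cont_node, cont_app, ← add_assoc]
        exact Multiset.mem_add.2 (Or.inl m3)
      · exact Or.inr (Or.inr ⟨rfl, m3, m4, Or.inl ⟨hi', h⟩⟩)
    · rcases m3 with m3 | ⟨m3, m4⟩
      · exfalso
        apply h3
        rw [h, cont_node, cont_nil, add_zero, cont_node]
        refine mem_raise m3 ?_
        rw [sup_add', sup_raise, ← ht_eq, ← ht_eq]
        omega
      · exact Or.inr (Or.inr ⟨rfl, m3, m4, Or.inr ⟨hi', h⟩⟩)

/-- **A0 against Ed** : a common word only if word 1 (`q ≥ 3`), or 18, 19 (`q = 0`, `cont B = {3}`, `3` not a part of `S`) is on a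
new T-cycle of the E triple -/
theorem _root_.Pool.OddHC.HM.NodeM.disj_Ed (h1 : NodeM k q R B S) (w0 : OddHC.X k) (h' : TyEd F' g')
    (c1 : 3 ≤ q → cyc (mX R B S q w0 1) ∉ F')
    (c2 : q = 0 → cont B = {3} → 3 ∉ cont S → cyc (mX R B S q w0 18) ∉ F' ∧ cyc (mX R B S q w0 19) ∉ F') :
    ∀ i < 20, mX R B S q w0 i ∉ g'.B := by
  obtain ⟨X, hX, h2, h3, ht⟩ := h'.data3
  intro i hi hw'
  have e : aw (Tsq.mir R) (pc (q + 1)) (Tsq.mir B) (Tsq.mir S) i = w1 .nil X .nil ∨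
      aw (Tsq.mir R) (pc (q + 1)) (Tsq.mir B) (Tsq.mir S) i = w1 X .nil .nil ∨
      aw (Tsq.mir R) (pc (q + 1)) (Tsq.mir B) (Tsq.mir S) i = w1 .nil .nil X := by
    rcases ht.words _ hw' with e1 | ⟨_, e1 | e1⟩ <;> rw [h1.word' w0 hi] at e1
    · exact Or.inl e1
    · exact Or.inr (Or.inl e1)
    · exact Or.inr (Or.inr e1)
  obtain ⟨b, c, hb, hc', rfl⟩ := tri_F ht
  rcases aw_deep h1.a0d hX h2 h3 hi e with ⟨hq, h, _⟩ | ⟨hq, hB, h, _⟩ | ⟨hq, hB, hS, h⟩
  · -- `X = Q()R` : the word `()X` is word 1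
    have e1 : c = mX R B S q w0 1 := by
      apply Subtype.ext
      rw [hc', h1.word' w0 (by norm_num), h]
      rfl
    exact c1 hq (Or.inr (by rw [← e1]; rfl))
  · -- `X = S()Q`, `B = e` : the word `X()` is word 11
    have e1 : b = mX R B S q w0 11 := by
      apply Subtype.ext
      rw [hb, h1.word' w0 (by norm_num), h, hB]
      simp only [w1, aw, app_assoc', app, app_nil']
    have e2 : cyc (mX R B S q w0 1) = cyc (mX R B S q w0 11) := cyc_eq.2 (h1.same11 w0)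
    exact c1 hq (Or.inl (by rw [e2, ← e1]))
  · have hB' : cont B = {3} := by rw [← hB]; exact (cont_mir B).symm
    have hS' : 3 ∉ cont S := by rw [← cont_mir S]; exact hS
    obtain ⟨c3, c4⟩ := c2 hq hB' hS'
    subst hq
    rcases h with ⟨hi', h⟩ | ⟨hi', h⟩
    · -- `X = (B)S()` : the word `X()` is word 18
      have e1 : b = mX R B S 0 w0 18 := by
        apply Subtype.ext
        rw [hb, h1.word' w0 (by norm_num), h]
        simp only [w1, aw, app_assoc', app, app_nil']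
        rfl
      exact c3 (Or.inl (by rw [← e1]))
    · -- `X = ((B)S)` : the word `()X` is word 19
      have e1 : c = mX R B S 0 w0 19 := by
        apply Subtype.ext
        rw [hc', h1.word' w0 (by norm_num), h]
        rfl
      exact c4 (Or.inr (by rw [← e1]; rfl))

/-- **A0 against Ed**, no new T-cycle of the E triple is met -/
theorem TyA0.disj_Ed (h : TyA0 F g) (h' : TyEd F' g') (hn : ∀ w ∈ g.B, cyc w ∉ F') : ∀ w ∈ g.B, w ∉ g'.B := by
  obtain ⟨q, R, B, S, w0, h1, hne, rfl, rfl⟩ := h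
  intro w hw
  obtain ⟨i, hi, rfl⟩ := mem_gad20M.1 hw
  have hn' : ∀ i < 20, cyc (mX R B S q w0 i) ∉ F' := fun i hi => hn _ (mem_gad20M.2 ⟨i, hi, rfl⟩)
  exact h1.disj_Ed w0 h' (fun _ => hn' 1 (by norm_num))
    (fun _ _ _ => ⟨hn' 18 (by norm_num), hn' 19 (by norm_num)⟩) i hi

/-- **A0 against Ed**, `c = 4`, `c = 5` or `c = 3` and not (`cont B = {3}`, `3` not a part of `S`) -/
theorem _root_.Pool.OddHC.HM.NodeM.disj_Ed' (h1 : NodeM k q R B S) (w0 : OddHC.X k) (h' : TyEd F' g')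
    (hq : q = 1 ∨ q = 2 ∨ (q = 0 ∧ (cont B ≠ {3} ∨ 3 ∈ cont S))) : ∀ i < 20, mX R B S q w0 i ∉ g'.B := by
  refine h1.disj_Ed w0 h' (fun h => by omega) (fun h2 h3 h4 => ?_)
  rcases hq with h | h | ⟨_, h | h⟩
  · omega
  · omega
  · exact absurd h3 h
  · exact absurd h h4

/-- **B0 (merged) against Ed** -/
theorem TyB0.disj_Ed (h : TyB0 F g) (h' : TyEd F' g') (hd : ∀ c ∈ F, c ∉ F')
    (c2 : ∀ (R B S : BinaryTree Unit) (w0 : OddHC.X k), NodeM k 0 R B S → cyc (mX R B S 0 w0 0) ∈ F →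
      cont B = {3} → 3 ∉ cont S → cyc (mX R B S 0 w0 18) ∉ F' ∧ cyc (mX R B S 0 w0 19) ∉ F') :
    ∀ w ∈ g.B, w ∉ g'.B := by
  obtain ⟨q, R, B, S, w0, h1, hne, h12, h18, rfl, rfl⟩ := h
  intro w hw
  obtain ⟨i, hi, h9, rfl⟩ := mem_gadSM.1 hw
  refine h1.disj_Ed w0 h' (fun _ => hd _ (Or.inr (Or.inl rfl))) ?_ i hi
  rintro rfl
  exact c2 R B S w0 h1 (Or.inl rfl)

/-- **B0 (merged, clean) against Ed** -/
theorem TyB0c.disj_Ed (h : TyB0c F g) (h' : TyEd F' g') (hd : ∀ c ∈ F, c ∉ F') : ∀ w ∈ g.B, w ∉ g'.B :=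
  h.disj_E h'.toE hd

/-- **A0 (clean, `c = 3`) against Ed** -/
theorem TyA0c.disj_Ed (h : TyA0c F g) (h' : TyEd F' g') : ∀ w ∈ g.B, w ∉ g'.B := h.disj_E h'.toE

/-- **T against Ed** -/
theorem dj_TEd : Dj (k := k) TyT TyEd := fun _ _ _ _ h h' _ => dj_TE' h h'.toE

/-- **Ed against T** -/
theorem dj_EdT : Dj (k := k) TyEd TyT := fun _ _ _ _ h h' _ w hw hw' => dj_TE' h' h.toE w hw' hw

namespace H1

variable {B1 H s : BinaryTree Unit}

/-- **a right window against a deep E triple** -/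
theorem W_deep (h : Wd R B S) (h2 : 2 ∉ cont X) (h3 : 3 ∉ cont X) {i : ℕ} (hi : i < 20)
    (e : W R (ch (q + 1)) B S i = X △ .nil ∨ W R (ch (q + 1)) B S i = app X (.nil △ .nil) ∨
      W R (ch (q + 1)) B S i = .nil △ X)
    (hc : q = 0 → 3 ∈ cont R ∧ 4 ≤ OddHC.ht R ∧ 4 ≤ OddHC.ht S ∧ cont B + cont S = cont R ∧ ∀ x ∈ cont B, 3 ≤ x) :
    (3 ≤ q ∧ X = app R (.nil △ ch (q + 1)) ∧ (i = 1 ∨ i = 2 ∨ i = 3)) ∨
    (3 ≤ q ∧ B = .nil ∧ X = app (ch (q + 1)) (.nil △ S) ∧ (i = 11 ∨ i = 14 ∨ i = 18)) ∨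
    (q = 0 ∧ cont B = {3} ∧ 3 ∉ cont S ∧ ((i = 18 ∧ X = .nil △ app S (B △ .nil)) ∨
      (i = 19 ∧ X = app S (B △ .nil) △ .nil))) := by
  have hch : cont (ch (q + 1)) = {q + 1} := ch_cont q
  rcases ae_shape h hi e with ⟨h4, hi'⟩ | ⟨hB, h4, hi'⟩ | ⟨hq, h4⟩
  · left
    refine ⟨deep_q h2 h3 ?_ ?_, h4, hi'⟩
    · rw [h4, cont_app, cont_node, hch, Multiset.mem_add, Multiset.mem_add]
      exact Or.inr (Or.inr (Multiset.mem_singleton_self _))
    · intro hd
      rw [h4, cont_app, Multiset.mem_add]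
      exact Or.inl (hc hd).1
  · right; left
    refine ⟨deep_q h2 h3 ?_ ?_, hB, h4, hi'⟩
    · rw [h4, cont_app, hch, Multiset.mem_add]
      exact Or.inl (Multiset.mem_singleton_self _)
    · intro hd
      obtain ⟨m0, -, -, m1, -⟩ := hc hd
      rw [hB, cont_nil, zero_add] at m1
      rw [h4, cont_app, cont_node, Multiset.mem_add, Multiset.mem_add, m1]
      exact Or.inr (Or.inr m0)
  · obtain ⟨m0, hR, hS, hc', hB3⟩ := hc hq
    subst hq
    have hR3 : 3 ≠ (cont R).sup := by rw [← OddHC.ht_eq]; omega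
    have hS3 : 3 ≠ (cont S).sup := by rw [← OddHC.ht_eq]; omega
    have m1 : 3 ∈ raise (cont R) := mem_raise m0 hR3
    have hBS : 3 ∈ cont B ∨ 3 ∈ cont S := by
      rw [← hc', Multiset.mem_add] at m0
      exact m0
    have m2 : 3 ∈ raise (cont S) + cont B := by
      rw [Multiset.mem_add]
      exact hBS.symm.imp_left fun h => mem_raise h hS3
    have m3 : 3 ∈ cont S + raise (cont B) ∨ (cont B = {3} ∧ 3 ∉ cont S) := by
      by_cases h5 : 3 ∈ cont S
      · exact Or.inl (Multiset.mem_add.2 (Or.inl h5))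
      · have h6 : 3 ∈ cont B := hBS.resolve_right h5
        by_cases h7 : cont B = {3}
        · exact Or.inr ⟨h7, h5⟩
        · exact Or.inl (Multiset.mem_add.2 (Or.inr (raise_B3 h6 hB3 h7)))
    rcases h4 with ⟨hi', h⟩ | ⟨hi', h⟩ | ⟨hi', h⟩ | ⟨hi', h⟩ | ⟨hi', h⟩ | ⟨hi', h⟩ | ⟨hi', h⟩ | ⟨hi', h⟩
    · exfalso
      apply h3
      rw [h, cont_node, cont_app]
      exact Multiset.mem_add.2 (Or.inr (Multiset.mem_add.2 (Or.inl m0)))
    · exfalso
      apply h3
      rw [h, cont_node, cont_nil, add_zero, cont_node]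
      refine mem_raise (Multiset.mem_add.2 (Or.inr m0)) ?_
      rw [sup_add', ← OddHC.ht_eq]
      omega
    · exfalso
      apply h3
      rw [h, cont_node, cont_node, cont_nil, add_zero]
      exact Multiset.mem_add.2 (Or.inr m1)
    · exfalso
      apply h3
      rw [h, cont_node, cont_nil, add_zero, cont_node, cont_nil, add_zero]
      refine mem_raise m1 ?_
      rw [sup_raise, ← OddHC.ht_eq]
      omega
    · exfalso
      apply h3
      rw [h, cont_node, cont_app, ← add_assoc]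
      exact Multiset.mem_add.2 (Or.inl m2)
    · exfalso
      apply h3
      rw [h, cont_node, cont_nil, add_zero, cont_node]
      refine mem_raise m2 ?_
      rw [sup_add', sup_raise, ← OddHC.ht_eq, ← OddHC.ht_eq]
      omega
    · rcases m3 with m3 | ⟨m3, m4⟩
      · exfalso
        apply h3
        rw [h, cont_node, cont_app, cont_node, cont_nil, add_zero]
        exact Multiset.mem_add.2 (Or.inr m3)
      · exact Or.inr (Or.inr ⟨rfl, m3, m4, Or.inl ⟨hi', h⟩⟩)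
    · rcases m3 with m3 | ⟨m3, m4⟩
      · exfalso
        apply h3
        rw [h, cont_node, cont_nil, add_zero, cont_app, cont_node, cont_nil, add_zero]
        refine mem_raise m3 ?_
        rw [sup_add', sup_raise, ← OddHC.ht_eq, ← OddHC.ht_eq]
        omega
      · exact Or.inr (Or.inr ⟨rfl, m3, m4, Or.inr ⟨hi', h⟩⟩)

theorem NodeG.same11 (h : NodeG k q B1 H s B) (w0 : OddHC.X k) :
    cyc (gX q B1 H s B w0 11) = cyc (gX q B1 H s B w0 1) := by
  rw [← h.link w0 (i := 1) (j := 11) (by simp)]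
  have e : ∀ x : OddHC.X k, cyc (TT x) = cyc x := fun x => cyc_eq.2 ⟨-1, by simp⟩
  rw [e, e]

/-- **A against Ed** : a common word only if word 1 (`q ≥ 3`), or 18, 19 (`q = 0`, `cont B = {3}`, `3` not a part of `S`) is on a
new T-cycle of the E triple -/
theorem NodeG.disj_Ed (h1 : NodeG k q B1 H s B) (w0 : OddHC.X k) (h' : TyEd F' g')
    (hc : q = 0 → 2 ∈ cont (gR B1 H s B) ∨ 3 ∈ cont (gR B1 H s B))
    (c1 : 3 ≤ q → cyc (gX q B1 H s B w0 1) ∉ F')
    (c2 : q = 0 → 2 ∉ cont (gR B1 H s B) → cont B = {3} → 3 ∉ cont (Tsq.sq (gR B1 H s B)).1 →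
      cyc (gX q B1 H s B w0 18) ∉ F' ∧ cyc (gX q B1 H s B w0 19) ∉ F') :
    ∀ i < 20, gX q B1 H s B w0 i ∉ g'.B := by
  intro i hi hw'
  by_cases h2R : 2 ∈ cont (gR B1 H s B)
  · exact h'.not_mem (Or.inl (Multiset.count_pos.2 (NodeG_two h1 w0 h2R hi))) hw'
  · obtain ⟨X, hX, h2, h3, ht⟩ := h'.data3
    have hD := h1.dat
    have e : W (gR B1 H s B) (ch (q + 1)) B (Tsq.sq (gR B1 H s B)).1 i = X △ .nil ∨
        W (gR B1 H s B) (ch (q + 1)) B (Tsq.sq (gR B1 H s B)).1 i = app X (.nil △ .nil) ∨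
        W (gR B1 H s B) (ch (q + 1)) B (Tsq.sq (gR B1 H s B)).1 i = .nil △ X := by
      rcases ht.words _ hw' with e1 | ⟨_, e1 | e1⟩ <;> rw [h1.word w0 hi] at e1
      · exact Or.inl e1
      · exact Or.inr (Or.inl e1)
      · exact Or.inr (Or.inr e1)
    have hht := h1.ht
    have hs3 := h1.hs3
    obtain ⟨b, c, hb, hc', rfl⟩ := tri_F ht
    rcases W_deep h1.wd h2 h3 hi e (fun h0 => ⟨(hc h0).resolve_left h2R, by omega, by rw [hD.htS]; omega, hD.cont,
      fun x hx => by have := h1.bare x hx; omega⟩) with ⟨hq, h, _⟩ | ⟨hq, hB, h, _⟩ | ⟨hq, hB, hS, h⟩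
    · -- `X = R()Q` : the word `X()` is word 1
      have e1 : b = gX q B1 H s B w0 1 := by
        apply Subtype.ext
        rw [hb, h1.word w0 (by norm_num), h]
        simp only [w1, W, app_assoc, app, app_nil]
      exact c1 hq (Or.inl (by rw [← e1]))
    · -- `X = Q()S`, `B = e` : the word `()X` is word 11
      have e1 : c = gX q B1 H s B w0 11 := by
        apply Subtype.ext
        have key : ∀ (B' Y : BinaryTree Unit), B' = .nil → app B' Y = Y := by rintro _ _ rfl; rfl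
        rw [hc', h1.word w0 (by norm_num), h, W, key _ _ hB]
        rfl
      exact c1 hq (Or.inr (by rw [← h1.same11, ← e1]; rfl))
    · obtain ⟨c3, c4⟩ := c2 hq h2R hB hS
      subst hq
      rcases h with ⟨hi', h⟩ | ⟨hi', h⟩
      · -- `X = ()S(B)` : the word `()X` is word 18
        have e1 : c = gX 0 B1 H s B w0 18 := by
          apply Subtype.ext
          rw [hc', h1.word w0 (by norm_num), h]
          rfl
        exact c3 (Or.inr (by rw [← e1]; rfl))
      · -- `X = (S(B))` : the word `X()` is word 19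
        have e1 : b = gX 0 B1 H s B w0 19 := by
          apply Subtype.ext
          rw [hb, h1.word w0 (by norm_num), h]
          rfl
        exact c4 (Or.inl (by rw [← e1]))

theorem hv_of_hg3 {t : BinaryTree Unit} : hg 3 t → hv t := by
  induction t with
  | nil => intro _; trivial
  | node _ A C ihA ihC =>
    intro h
    refine ⟨?_, ihC h.2⟩
    rcases h.1 with h1 | ⟨h1, h2⟩
    · exact Or.inl h1
    · exact Or.inr ⟨h1, ihA h2⟩

/-- all parts at least `3`: heavy -/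
theorem hv_of_parts {t : BinaryTree Unit} (h : ∀ x ∈ cont t, 3 ≤ x) : hv t := hv_of_hg3 (hg_of_cont (by omega) h)

theorem _root_.Pool.OddHC.HM.NodeM.wd (h : HM.NodeM k q R B S) : Wd R B S := by
  have hR : hv R := hv_of_parts fun x hx => by have := h.part x hx; omega
  have hB : hv B := hv_of_parts fun x hx => by
    have := h.part x (by rw [← h.eq]; exact Multiset.mem_add.2 (Or.inl hx))
    omega
  have hS : hv S := hv_of_parts fun x hx => by
    have := h.part x (by rw [← h.eq]; exact Multiset.mem_add.2 (Or.inr hx))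
    omega
  refine ⟨h.ne, hv_fb hR, hv_last hR, hv_fb hB, hv_last hB, ?_, hv_fb hS, hv_last hS⟩
  rintro rfl
  have h1 := h.dat.htS
  have h2 := h.top
  rw [← h1] at h2
  change q + 3 < 0 at h2
  omega

/-- **a right bare window against Ed** -/
theorem _root_.Pool.OddHC.HM.NodeM.rdisj_Ed (h1 : HM.NodeM k q R B S) (w0 : OddHC.X k) (h' : TyEd F' g')
    (c1 : 3 ≤ q → cyc (wX R B S q w0 1) ∉ F')
    (c2 : q = 0 → cont B = {3} → 3 ∉ cont S → cyc (wX R B S q w0 18) ∉ F' ∧ cyc (wX R B S q w0 19) ∉ F') :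
    ∀ i < 20, wX R B S q w0 i ∉ g'.B := by
  intro i hi hw'
  obtain ⟨X, hX, h2, h3, ht⟩ := h'.data3
  have hD := h1.dat
  have word : ∀ {i : ℕ}, i < 20 → (wX R B S q w0 i).1 = W R (ch (q + 1)) B S i := fun hi => wX_eq hD h1.size w0 hi
  have e : W R (ch (q + 1)) B S i = X △ .nil ∨ W R (ch (q + 1)) B S i = app X (.nil △ .nil) ∨
      W R (ch (q + 1)) B S i = .nil △ X := by
    rcases ht.words _ hw' with e1 | ⟨_, e1 | e1⟩ <;> rw [word hi] at e1
    · exact Or.inl e1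
    · exact Or.inr (Or.inl e1)
    · exact Or.inr (Or.inr e1)
  have htop := h1.top
  obtain ⟨b, c, hb, hc', rfl⟩ := tri_F ht
  rcases W_deep h1.wd h2 h3 hi e (fun h0 => ⟨by have := h1.memw.resolve_right (fun g1 => absurd g1.1 (by omega)); rwa [h0] at this, by omega, by rw [hD.htS]; omega, h1.eq,
    fun x hx => by
      have := h1.part x (by rw [← h1.eq]; exact Multiset.mem_add.2 (Or.inl hx))
      omega⟩) with ⟨hq, h, _⟩ | ⟨hq, hB, h, _⟩ | ⟨hq, hB, hS, h⟩
  · have e1 : b = wX R B S q w0 1 := by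
      apply Subtype.ext
      rw [hb, word (by norm_num), h]
      simp only [w1, W, app_assoc, app, app_nil]
    exact c1 hq (Or.inl (by rw [← e1]))
  · have e1 : c = wX R B S q w0 11 := by
      apply Subtype.ext
      rw [hc', word (by norm_num), h, hB]
      rfl
    have e2 : cyc (wX R B S q w0 11) = cyc (wX R B S q w0 1) := by
      rw [← wX_link hD h1.size w0 (i := 1) (j := 11) (by simp)]
      have e : ∀ x : OddHC.X k, cyc (TT x) = cyc x := fun x => cyc_eq.2 ⟨-1, by simp⟩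
      rw [e, e]
    exact c1 hq (Or.inr (by rw [← e2, ← e1]; rfl))
  · obtain ⟨c3, c4⟩ := c2 hq hB hS
    subst hq
    rcases h with ⟨hi', h⟩ | ⟨hi', h⟩
    · have e1 : c = wX R B S 0 w0 18 := by
        apply Subtype.ext
        rw [hc', word (by norm_num), h]
        rfl
      exact c3 (Or.inr (by rw [← e1]; rfl))
    · have e1 : b = wX R B S 0 w0 19 := by
        apply Subtype.ext
        rw [hb, word (by norm_num), h]
        rfl
      exact c4 (Or.inl (by rw [← e1]))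

/-! ### Inner words -/

/-- small parts of the words 0, 1, 3, 6, 8, 9 -/
theorem W_small {i : ℕ} (hi : i ∈ [0, 1, 3, 6, 8, 9]) (ht : 4 ≤ OddHC.ht R) (hq : q + 3 ≤ OddHC.ht R)
    (hc : 2 ∈ cont R ∨ 3 ∈ cont R ∨ (q = 1 ∧ i ≠ 0) ∨ (q = 2 ∧ i ≠ 0 ∧ i ≠ 6)) :
    1 ≤ (cont (W R (ch (q + 1)) B S i)).count 2 ∨ 1 ≤ (cont (W R (ch (q + 1)) B S i)).count 3 := by
  obtain ⟨d1, d2⟩ := count_WQ (R := R) (B := B) (S := S) (q := q) (by omega)
  have key : ∀ x, x < OddHC.ht R → x ∈ cont R → 1 ≤ (cont (W R (ch (q + 1)) B S i)).count x := by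
    intro x hx hx2
    exact le_trans (Multiset.count_pos.2 hx2) (count_W hx i hi)
  rcases hc with hc | hc | ⟨hc, h0⟩ | ⟨hc, h0, h6⟩
  · exact Or.inl (key 2 (by omega) hc)
  · exact Or.inr (key 3 (by omega) hc)
  · subst hc
    by_cases h6 : i = 6
    · subst h6; exact Or.inr d2
    · refine Or.inl (d1 i ?_)
      simp only [List.mem_cons, List.not_mem_nil, or_false] at hi ⊢
      omega
  · subst hc
    refine Or.inr (d1 i ?_)
    simp only [List.mem_cons, List.not_mem_nil, or_false] at hi ⊢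
    omega

/-- **inner words of the bare windows (both orientations) against Ed**: none for `c = 3`, `c = 4` (but word 0), `c = 5` (but words 0, 6);
words 0, 1 if the E triple is not lower -/
theorem _root_.Pool.OddHC.HM.NodeM.not_Ed (h : HM.NodeM k q R B S) (w0 : OddHC.X k) {i : ℕ}
    (hi : i ∈ [0, 1, 3, 6, 8, 9]) {w : OddHC.X k}
    (hw : w = TT (wX R B S q w0 i) ∨ w = Tsq.mirX (TT (wX R B S q w0 i))) (h' : TyEd F' g')
    (hc : q = 0 ∨ (q = 1 ∧ i ≠ 0) ∨ (q = 2 ∧ i ≠ 0 ∧ i ≠ 6) ∨ ((i = 0 ∨ i = 1) ∧ ∀ d ∈ F', OddHC.ht R ≤ htc d)) :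
    w ∉ g'.B := by
  obtain ⟨c1, c2, c3⟩ := h.winn w0 hi hw
  have htop := h.top
  have key : (q = 0 ∨ (q = 1 ∧ i ≠ 0) ∨ (q = 2 ∧ i ≠ 0 ∧ i ≠ 6)) → w ∉ g'.B := by
    intro hc
    refine h'.not_mem ?_
    rw [c1]
    apply W_small hi (by omega) (by omega)
    rcases hc with hc | hc | hc
    · right; left
      have := h.memw.resolve_right fun g1 => absurd g1.1 (by omega)
      rwa [hc] at this
    · exact Or.inr (Or.inr (Or.inl hc))
    · exact Or.inr (Or.inr (Or.inr hc))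
  rcases hc with hc | hc | hc | hc
  · exact key (Or.inl hc)
  · exact key (Or.inr (Or.inl hc))
  · exact key (Or.inr (Or.inr hc))
  · exact h.not_E w0 hi hw h'.toE (Or.inl hc)

/-- **inner words of the bare windows (both orientations) against an E triple over a natural word**, `X = aV`, `Va`, `(aV)V'`, `V'(Va)`,
`a = [p]`, `2 ≤ p < c` -/
theorem _root_.Pool.OddHC.HM.NodeM.not_EdN (h : HM.NodeM k q R B S) (w0 : OddHC.X k) {i : ℕ}
    (hi : i ∈ [0, 1, 3, 6, 8, 9]) {w : OddHC.X k}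
    (hw : w = TT (wX R B S q w0 i) ∨ w = Tsq.mirX (TT (wX R B S q w0 i))) {p : ℕ} (hp : 2 ≤ p)
    (hpc : p < q + 3) (hX : NatX p X) (h' : IsTri .nil X .nil F' g') : w ∉ g'.B := by
  have hin : InnP (q + 3) w.1 := by
    rcases hw with rfl | rfl
    · exact (h.inn w0 hi).1
    · exact (h.inn w0 hi).2
  intro hB
  rcases h'.words _ hB with e | ⟨_, e | e⟩
  · exact h.not_nat w0 hi hw hp hpc hX e
  · exact hin.not_last (Y := X) e
  · exact hin.not_first (Y := X) e

/-- the only common word is the host `(X)` -/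
theorem _root_.Pool.OddHC.HM.NodeM.host_Ed (h : HM.NodeM k q R B S) (w0 : OddHC.X k) {i : ℕ}
    (hi : i ∈ [0, 1, 3, 6, 8, 9]) {w : OddHC.X k}
    (hw : w = TT (wX R B S q w0 i) ∨ w = Tsq.mirX (TT (wX R B S q w0 i))) (h' : IsTri .nil X .nil F' g')
    (hB : w ∈ g'.B) : w.1 = X △ .nil := by
  have hin : InnP (q + 3) w.1 := by
    rcases hw with rfl | rfl
    · exact (h.inn w0 hi).1
    · exact (h.inn w0 hi).2
  rcases h'.words _ hB with e | ⟨_, e | e⟩
  · exact e
  · exact absurd e (hin.not_last (Y := X))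
  · exact absurd e (hin.not_first (Y := X))

/-- **inner words of the windows A against Ed** -/
theorem NodeG.not_Ed (h : NodeG k q B1 H s B) (w0 : OddHC.X k) {i : ℕ} (hi : i ∈ [0, 1, 3, 6, 8, 9]) (h' : TyEd F' g')
    (hc : 2 ∈ cont (gR B1 H s B) ∨ 3 ∈ cont (gR B1 H s B) ∨ (q = 1 ∧ i ≠ 0) ∨ (q = 2 ∧ i ≠ 0 ∧ i ≠ 6) ∨
      ((i = 0 ∨ i = 1) ∧ ∀ d ∈ F', OddHC.ht s + 1 ≤ htc d)) : TT (gX q B1 H s B w0 i) ∉ g'.B := by
  have hs3 := h.hs3
  have hht := h.ht
  have hbig := h.big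
  have hi' : i < 20 := by
    simp only [List.mem_cons, List.not_mem_nil, or_false] at hi
    omega
  have key : (2 ∈ cont (gR B1 H s B) ∨ 3 ∈ cont (gR B1 H s B) ∨ (q = 1 ∧ i ≠ 0) ∨ (q = 2 ∧ i ≠ 0 ∧ i ≠ 6)) →
      TT (gX q B1 H s B w0 i) ∉ g'.B := by
    intro hc
    refine h'.not_mem ?_
    rw [cont_TT, h.word w0 hi']
    exact W_small hi (by omega) (by omega) hc
  rcases hc with hc | hc | hc | hc | hc
  · exact key (Or.inl hc)
  · exact key (Or.inr (Or.inl hc))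
  · exact key (Or.inr (Or.inr (Or.inl hc)))
  · exact key (Or.inr (Or.inr (Or.inr hc)))
  · exact h.innerE01 w0 hc.1 h'.toE hc.2

end H1

/-- **I: A0 against Ed, `c = 3`** -/
theorem TyA0.inner_Ed3 (h : TyA0 F g) (h' : TyEd F' g') (h3 : ∀ c ∈ F, 3 ∈ contc c) :
    ∀ p ∈ g.arcs, ∀ w ∈ innA p, w ∉ g'.B := by
  obtain ⟨q, R, B, S, w0, h1, rfl, h2⟩ := h.inn
  intro p hp w hw
  obtain ⟨i, hi, e⟩ := h2 p hp
  rw [e] at hw
  refine h1.not_Ed w0 hi (Or.inr hw) h' (Or.inl ?_)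
  have h4 : 3 ∈ cont (mX R B S q w0 0).1 := h3 _ rfl
  rw [h1.cont0, Multiset.mem_add, Multiset.mem_singleton] at h4
  rcases h4 with h4 | h4
  · have := h1.part _ h4
    omega
  · omega

/-- **I: A0 against Ed**, the E triple is over a natural word for a part `p` less than the parts of `F` -/
theorem TyA0.inner_EdN (h : TyA0 F g) {p : ℕ} (hp : 2 ≤ p) (hX : H1.NatX p X) (h' : IsTri .nil X .nil F' g')
    (hF : ∀ c ∈ F, ∀ x ∈ contc c, p < x) : ∀ a ∈ g.arcs, ∀ w ∈ innA a, w ∉ g'.B := by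
  obtain ⟨q, R, B, S, w0, h1, rfl, h2⟩ := h.inn
  intro a ha w hw
  obtain ⟨i, hi, e⟩ := h2 a ha
  rw [e] at hw
  refine h1.not_EdN w0 hi (Or.inr hw) hp (hF _ rfl _ ?_) hX h'
  change q + 3 ∈ cont (mX R B S q w0 0).1
  rw [h1.cont0, Multiset.mem_add, Multiset.mem_singleton]
  exact Or.inr rfl

/-- **A against Ed**, no new T-cycle of the E triple is met; a part 2 or 3, or `c ≥ 4` -/
theorem TyA.disj_Ed (h : TyA F g) (h' : TyEd F' g') (hn : ∀ w ∈ g.B, cyc w ∉ F')
    (hc : ∀ (q : ℕ) (B1 H s B : BinaryTree Unit) (w0 : OddHC.X k), H1.NodeG k q B1 H s B →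
      F = {cyc (H1.gX q B1 H s B w0 0)} → q = 0 → 2 ∈ cont (H1.gR B1 H s B) ∨ 3 ∈ cont (H1.gR B1 H s B)) :
    ∀ w ∈ g.B, w ∉ g'.B := by
  obtain ⟨q, B1, H, s, B, w0, hG, rfl, rfl⟩ := h
  intro w hw
  obtain ⟨i, hi, rfl⟩ := mem_gad20.1 hw
  have hn' : ∀ i < 20, cyc (H1.gX q B1 H s B w0 i) ∉ F' := fun i hi => hn _ (mem_gad20.2 ⟨i, hi, rfl⟩)
  exact hG.disj_Ed w0 h' (hc q B1 H s B w0 hG rfl) (fun _ => hn' 1 (by norm_num))
    (fun _ _ _ _ => ⟨hn' 18 (by norm_num), hn' 19 (by norm_num)⟩) i hi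

end Pool.OddHC
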