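import Pool.Agent.Work.MP_8f87b2_h29.EdWin
import Pool.Agent.Work.MP_8f87b2_h13.A0Dn
import Pool.Agent.Work.MP_8f87b2_h2.KHp
import Pool.Agent.Work.MP_8f87b2_h27.DisKm
import Pool.Agent.Work.MP_8f87b2_h27.S5D
import Pool.Agent.Work.MP_8f87b2_h61.JsC
import Pool.Agent.Work.MP_8f87b2_h63.J4C

/-!
# MP_8f87b2_co: the DOWN links (type `Dn`: right content links with `c = 2`), words against all types (helper29)

host `(U)[2]`, new words `U[3]`, `[2]()U`; `DnU U`: first component heavy, unmarked, not one component, height at least `3`, no part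
`2`, at most one bead. It holds for `U` bare (all parts at least `3`), not one component (`DnU.of_bare`; helper18's rule (B), `U = Y[3]`),
and for `U = V()[n+1]` or `U = V[n+1]` with `n + 1` the smallest part, no part `2`, `3` (`DnSh`, helper13).
-/

set_option autoImplicit false
set_option linter.all false

namespace Pool.OddHC

open Finset Equiv BinaryTree Pool.Agent.Work.MP_8f87b2_co HM

variable {k : ℕ} {F F' : Set (Cyc k)} {g g' : DG k} {U X S R : BinaryTree Unit} {c : ℕ}

/-- the insides `U` -/
structure DnU (U : BinaryTree Unit) : Prop where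
  h3 : 3 ≤ ht U
  c1 : (cont U).count 1 ≤ 1
  c2 : (cont U).count 2 = 0
  um : H1.UM U
  hd : H1.gd (H1.t3hd U)
  two : ∀ A, U ≠ A △ .nil

/-- TYPE Dn: DOWN (right content link, `c = 2`) -/
def TyDn (F : Set (Cyc k)) (g : DG k) : Prop := ∃ U : BinaryTree Unit, DnU U ∧ TyC 2 U F g

theorem EndSh.part (h : EndSh U) : ∃ n, 1 ≤ n ∧ n + 1 ∈ cont U := by
  obtain ⟨L, n, hn, e⟩ := h.last
  refine ⟨n, hn, mem_comps (A := pc n) (by rw [e]; simp) ?_⟩
  obtain ⟨m, rfl⟩ : ∃ m, n = m + 1 := ⟨n - 1, by omega⟩
  rw [cont_pc, raise_single]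
  exact Multiset.mem_singleton_self _

theorem DnSh.ht4 (h : DnSh U) : 4 ≤ ht U := by
  obtain ⟨n, hn, h1⟩ := h.sh.part
  have h2 := h.p23 _ h1
  have h3 := Multiset.le_sup h1
  rw [← ht_eq] at h3
  omega

theorem DnSh.ne (h : DnSh U) : U ≠ .nil := h.sh.ne

theorem hv_ht29 : ∀ {S : BinaryTree Unit}, H1.hv S → S ≠ .nil → 3 ≤ ht S
  | .nil, _, h => absurd rfl h
  | .node _ A X, h, _ => by
    change 3 ≤ ht (A △ X)
    rw [ht_node]
    rcases h.1 with rfl | ⟨h1, h2⟩
    · have : ht (((.nil : BinaryTree Unit) △ .nil) △ .nil) = 2 := rfl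
      omega
    · have := hv_ht29 h2 h1
      omega

theorem cont_lp29 (m : ℕ) : cont (lp m) = Multiset.replicate m 1 := by
  unfold lp
  rw [cont_lv, cont_nil, add_zero]

theorem DnU.ne (h : DnU U) : U ≠ .nil := by
  rintro rfl
  exact absurd h.h3 (by decide)

theorem DnSh.toU (h : DnSh U) (um : H1.UM U) (hd : H1.gd (H1.t3hd U)) (two : ∀ A, U ≠ A △ .nil) : DnU U :=
  ⟨by have := h.ht4; omega, h.one, Multiset.count_eq_zero.2 fun h2 => (h.p23 _ h2).1 rfl, um, hd, two⟩

/-- `U` bare, not one component -/
theorem DnU.of_bare (h : ∀ x ∈ cont U, 3 ≤ x) (h0 : U ≠ .nil) (two : ∀ A, U ≠ A △ .nil) : DnU U := by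
  have hv : H1.hv U := H1.hv_of_parts h
  refine ⟨hv_ht29 hv h0, ?_, ?_, H1.um_hv hv, ?_, two⟩
  · rw [Multiset.count_eq_zero_of_notMem]
    · omega
    · intro h1
      have := h 1 h1
      omega
  · rw [Multiset.count_eq_zero]
    intro h1
    have := h 2 h1
    omega
  · cases U with
    | nil => exact absurd rfl h0
    | node _ A Y => exact hv.1

/-- `U = Y[3]` -/
theorem DnU.of_three {Y : BinaryTree Unit} (h : ∀ x ∈ cont Y, 4 ≤ x) (h0 : Y ≠ .nil) : DnU (app Y (pc 3)) := by
  refine DnU.of_bare ?_ (app_ne' (by simp [pc])) ?_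
  · intro x hx
    rw [cont_app, cont_pc, Multiset.mem_add, Multiset.mem_singleton] at hx
    rcases hx with hx | hx
    · have := h x hx
      omega
    · omega
  · intro A e
    cases Y with
    | nil => exact h0 rfl
    | node _ C D =>
      have e1 := (H1.node_inj (e : C △ app D (pc 3) = A △ .nil)).2
      exact absurd (H1.app_eq_nil.1 e1).2 (by simp [pc])

theorem DnU.len (h : DnU U) : 2 ≤ (comps U).length := by
  have h1 := h.ne
  have h2 := h.two
  match U, h1, h2 with
  | .nil, h1, _ => exact absurd rfl h1
  | .node _ A .nil, _, h2 => exact absurd rfl (h2 A)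
  | .node _ A (.node _ B C), _, _ =>
    simp [comps]

theorem DnU.fb (h : DnU U) : H1.fb U = false := by
  have h1 := H1.gd_ne h.hd
  have h2 := h.ne
  cases U with
  | nil => exact absurd rfl h2
  | node _ A B => exact H1.isNil_f.2 h1

theorem DnU.first (h : DnU U) {A : BinaryTree Unit} {l : List (BinaryTree Unit)} (e : comps U = A :: l) : H1.gd A := by
  have h1 := h.hd
  have h2 := h.ne
  cases U with
  | nil => exact absurd rfl h2
  | node _ C D =>
    rw [comps_node, List.cons.injEq] at e
    rw [← e.1]
    exact h1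

/-- `U = V[n+1]`, `n + 1` the smallest part -/
theorem DnU.of_end {V : BinaryTree Unit} {n : ℕ} (hV : ∀ x ∈ cont V, n + 1 ≤ x) (h0 : V ≠ .nil) (hn : 3 ≤ n) :
    DnSh (app V (pc (n + 1))) ∧ DnU (app V (pc (n + 1))) := by
  have hv : H1.hv V := H1.hv_of_parts fun x hx => by have := hV x hx; omega
  have hc : ∀ x ∈ cont (app V (pc (n + 1))), n + 1 ≤ x := by
    intro x hx
    rw [cont_app, cont_pc, Multiset.mem_add, Multiset.mem_singleton] at hx
    rcases hx with hx | rfl
    · exact hV x hx
    · exact le_rfl
  have hs : DnSh (app V (pc (n + 1))) := by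
    refine ⟨Or.inr ⟨V, n, by omega, rfl, hc⟩, ?_, ?_⟩
    · intro x hx
      have := hc x hx
      omega
    · rw [Multiset.count_eq_zero_of_notMem]
      · omega
      · intro hx
        have := hc 1 hx
        omega
  refine ⟨hs, hs.toU ?_ ?_ ?_⟩
  · rw [← H1.ch_eq]
    exact H1.um_app hv h0 (H1.um_ch _).am
  · exact gd_hd_hv hv h0
  · intro A e
    cases V with
    | nil => exact h0 rfl
    | node _ C D =>
      have e1 := (H1.node_inj (e : C △ app D (pc (n + 1)) = A △ .nil)).2
      exact absurd (H1.app_eq_nil.1 e1).2 (by simp [pc])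

/-- `U = V()[n+1]` -/
theorem DnU.of_bead {V : BinaryTree Unit} {n : ℕ} (hV : ∀ x ∈ cont V, 4 ≤ x) (h0 : V ≠ .nil) (hn : 3 ≤ n) :
    DnSh (app V (.nil △ pc (n + 1))) ∧ DnU (app V (.nil △ pc (n + 1))) := by
  have hv : H1.hv V := H1.hv_of_parts fun x hx => by have := hV x hx; omega
  have hc : cont (app V (.nil △ pc (n + 1))) = cont V + ({1} + {n + 1}) := by
    rw [cont_app, cont_node, cont_nil, raise_zero, cont_pc]
  have hs : DnSh (app V (.nil △ pc (n + 1))) := by
    refine ⟨Or.inl ⟨V, n, by omega, rfl⟩, ?_, ?_⟩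
    · intro x hx
      rw [hc, Multiset.mem_add, Multiset.mem_add, Multiset.mem_singleton, Multiset.mem_singleton] at hx
      rcases hx with hx | hx | hx
      · have := hV x hx
        omega
      · omega
      · omega
    · rw [hc, Multiset.count_add, Multiset.count_add, Multiset.count_eq_zero_of_notMem (fun hx => by
        have := hV 1 hx
        omega), Multiset.count_singleton_self, Multiset.count_singleton, if_neg (by omega)]
  refine ⟨hs, hs.toU ?_ ?_ ?_⟩
  · rw [← H1.ch_eq]
    exact H1.um_K1 _ hv h0
  · exact gd_hd_hv hv h0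
  · intro A e
    cases V with
    | nil => exact h0 rfl
    | node _ C D =>
      have e1 := (H1.node_inj (e : C △ app D (.nil △ pc (n + 1)) = A △ .nil)).2
      exact absurd (H1.app_eq_nil.1 e1).2 (by simp)

/-! ### Plain triples -/

/-- E against right content links -/
theorem tri_E_C (hX : X ≠ .nil) (ht : IsTri .nil X .nil F g) (ht' : TyC c R F' g') (hc : 2 ≤ c) (hRn : R ≠ .nil)
    (hd : ∀ c ∈ F, c ∉ F') : ∀ w ∈ g.B, w ∉ g'.B := by
  have hch := ch_ne (show 1 ≤ c by omega)
  refine tri_dis ht ht' hd ?_ ?_ ?_ ?_ ?_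
  · intro e; exact absurd e (one_ne_two (Or.inr hch))
  · exact one_ne_two (Or.inl hRn)
  · exact one_ne_two (Or.inl hch)
  · intro e
    have e1 := rev_inj (congrArg comps e)
    simp only [comps_w1, comps, List.nil_append, comps_ch' (show 1 ≤ c by omega),
      List.reverse_append, List.reverse_cons, List.reverse_nil, List.singleton_append,
      List.cons_append, List.cons.injEq] at e1
    exact ch_ne2 hc e1.1
  · intro e
    have e1 := congrArg comps e
    simp only [comps_w1, comps, List.nil_append, List.cons.injEq] at e1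
    exact hRn e1.1

/-- **E - Dn** -/
theorem dj_EDn : Dj (k := k) TyE TyDn := by
  intro F g F' g' h h' hd
  obtain ⟨X, hX, ht, -⟩ := h.data
  obtain ⟨U, hU, ht'⟩ := h'
  exact tri_E_C hX ht ht' le_rfl hU.ne hd

/-- **Ed - Dn** -/
theorem dj_EdDn : Dj (k := k) TyEd TyDn := fun F g F' g' h h' hd => dj_EDn F g F' g' h.toE h' hd

/-- **L - Dn** -/
theorem dj_LDn : Dj (k := k) TyL TyDn := by
  intro F g F' g' h h' hd
  obtain ⟨R', e, h1, h2, h3, h4, ht⟩ := h
  obtain ⟨R, hU, ht'⟩ := h'
  have hRn := hU.ne
  have hc : 2 ≤ 2 := le_rfl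
  have hlp : comps (lp 1) = [.nil] := rfl
  refine tri_dis ht ht' hd ?_ ?_ ?_ ?_ ?_
  · intro e
    have e1 := congrArg comps e
    simp only [comps_w1, hlp, comps, List.nil_append, List.cons_append, List.cons.injEq] at e1
    exact absurd e1.1.symm hRn
  · intro e
    have e1 := rev_inj (congrArg comps e)
    simp only [comps_w1, hlp, comps, List.nil_append, List.reverse_append, List.reverse_cons,
      List.reverse_nil, List.singleton_append, List.cons_append, List.cons.injEq] at e1
    exact ch_ne (show 1 ≤ 2 by omega) e1.1.symm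
  · intro e
    have e1 := congrArg comps e
    simp only [comps_w1, hlp, comps, List.nil_append, comps_ch' (show 1 ≤ 2 by omega),
      List.cons_append, List.cons.injEq] at e1
    exact ch_ne2 hc e1.1.symm
  · intro e
    have e1 := rev_inj (congrArg comps e)
    simp only [comps_w1, hlp, comps, List.nil_append, comps_ch' (show 1 ≤ 2 by omega),
      List.reverse_append, List.reverse_cons,
      List.reverse_nil, List.singleton_append, List.cons_append, List.cons.injEq] at e1
    exact ch_ne2 hc e1.1
  · intro e
    have e1 := congrArg comps e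
    simp only [comps_w1, hlp, comps, List.nil_append, List.cons_append, List.cons.injEq] at e1
    exact hRn e1.1

/-- **K - Dn**, `S ≠ (U)` -/
theorem tri_K_Dn (hSn : S ≠ .nil) (ht : TyK S F g) (hU : DnU U) (ht' : TyC 2 U F' g') (hS : S ≠ U △ .nil)
    (hd : ∀ c ∈ F, c ∉ F') : ∀ w ∈ g.B, w ∉ g'.B := by
  have hRn := hU.ne
  have hc1 : comps (H1.ch 2) = [H1.ch 1] := rfl
  refine tri_dis ht ht' hd ?_ ?_ ?_ ?_ ?_
  · intro e
    have e1 := rev_inj (congrArg comps e)
    simp only [comps_w1, hc1, comps, List.nil_append, List.reverse_append, List.reverse_cons,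
      List.reverse_nil, List.singleton_append, List.cons_append, List.cons.injEq] at e1
    exact absurd e1.1.symm (ch_ne (le_refl 1))
  · intro e
    have e1 := rev_inj (congrArg comps e)
    simp only [comps_w1, comps, List.nil_append, List.reverse_append, List.reverse_cons,
      List.reverse_nil, List.singleton_append, List.cons_append, List.cons.injEq] at e1
    exact ch_ne (show 1 ≤ 2 by omega) e1.1.symm
  · intro e
    have e1 := congrArg comps e
    have h5 := List.length_pos_iff.2 (comps_ne hRn)
    simp only [comps_w1, hc1, comps, List.nil_append, List.cons_append] at e1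
    have e2 := congrArg List.length e1
    simp only [List.length_cons, List.length_nil] at e2
    omega
  · intro e
    -- (U)[2] = S(())
    apply hS
    apply comps_inj
    have e1 := rev_inj (congrArg comps e)
    simp only [comps_w1, hc1, comps, List.nil_append, List.reverse_append, List.reverse_cons,
      List.reverse_nil, List.singleton_append, List.cons_append, List.cons.injEq] at e1
    have e2 := rev_inj e1.2
    rw [List.reverse_reverse] at e2
    rw [comps_node, comps, ← e2]
    rfl
  · intro e
    have e1 := congrArg comps e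
    simp only [comps_w1, comps, List.nil_append, List.cons_append, List.cons.injEq] at e1
    exact hRn e1.1

/-- `V X = (U)` with `V` heavy, not empty -/
theorem app_one {V X A : BinaryTree Unit} (hV : V ≠ .nil) (e : app V X = A △ .nil) : V = A △ .nil ∧ X = .nil := by
  cases V with
  | nil => exact absurd rfl hV
  | node _ C D =>
    have e1 : C △ app D X = A △ .nil := e
    obtain ⟨e2, e3⟩ := H1.node_inj e1
    obtain ⟨e4, e5⟩ := H1.app_eq_nil.1 e3
    rw [e2, e4]
    exact ⟨rfl, e5⟩

/-- the right K links of the plan are not over `S = (U)` -/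
theorem KHp.not_one (h : KHp S) (A : BinaryTree Unit) : S ≠ A △ .nil := by
  intro e
  rcases h with ⟨S1, q, h0, h1, h2, -⟩ | ⟨S1, q, h0, h1, h2⟩ | ⟨S1, q, h0, h1, h2⟩ | ⟨S1, q, h0, h1, h2⟩ |
    ⟨S1, A', m, h0, h1, h3⟩ | ⟨S1, q, h0, h1, h2⟩
  · exact absurd (app_one h2 (h0.symm.trans e)).2 (by simp [pc])
  · exact absurd (app_one h2 (h0.symm.trans e)).2 (by simp)
  · exact absurd (app_one h2 (h0.symm.trans e)).2 (by simp [lp, lv])
  · exact absurd (app_one h2 (h0.symm.trans e)).2 (by simp)
  · by_cases hn : S1 = .nil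
    · subst hn
      have e1 : app A' (lp 1) △ lp (m + 1) = A △ .nil := h0.symm.trans e
      exact absurd (H1.node_inj e1).2 (by simp [lp, lv])
    · exact absurd (app_one hn (h0.symm.trans e)).2 (by simp)
  · exact absurd (app_one h2 (h0.symm.trans e)).2 (by simp [lv2])

/-- **K - Dn** -/
theorem dj_KhDn : Dj (k := k) TyKh TyDn := by
  intro F g F' g' h h' hd
  obtain ⟨S, hS, ht⟩ := h
  obtain ⟨U, hU, ht'⟩ := h'
  exact tri_K_Dn hS.ne ht hU ht' (hS.not_one U) hd

/-- **K' - Dn** -/
theorem tri_Km_Dn (hSn : S ≠ .nil) (ht : TyK' S F g) (hU : DnU U) (ht' : TyC 2 U F' g')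
    (hd : ∀ c ∈ F, c ∉ F') : ∀ w ∈ g.B, w ∉ g'.B := by
  have hRn := hU.ne
  have hc1 : comps (H1.ch 2) = [H1.ch 1] := rfl
  have hl := hU.len
  have h5 := List.length_pos_iff.2 (comps_ne hSn)
  refine tri_dis ht ht' hd ?_ ?_ ?_ ?_ ?_
  · intro e
    have e1 := congrArg comps e
    simp only [comps_w1, hc1, comps, List.nil_append, List.cons_append, List.cons.injEq] at e1
    exact absurd e1.1.symm hRn
  · intro e
    -- ()(S) = U[3]
    have e1 := congrArg (fun t => (comps t).length) e
    simp only [comps_w1, hc1, comps, List.nil_append, List.cons_append, List.length_cons,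
      List.length_nil, List.length_append] at e1
    omega
  · intro e
    have e1 := congrArg (fun t => (comps t).length) e
    simp only [comps_w1, hc1, comps, List.nil_append, List.cons_append, List.length_cons,
      List.length_nil, List.length_append] at e1
    omega
  · intro e
    -- (U)[2] = S()()
    have e1 := rev_inj (congrArg comps e)
    simp only [comps_w1, hc1, comps, List.nil_append, List.reverse_append, List.reverse_cons,
      List.reverse_nil, List.singleton_append, List.cons_append, List.cons.injEq] at e1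
    exact ch_ne (le_refl 1) e1.1
  · intro e
    -- (U)[2] = (())S
    have e1 := congrArg comps e
    simp only [comps_w1, hc1, comps, List.nil_append, List.cons.injEq] at e1
    have h6 := hU.h3
    rw [e1.1] at h6
    change 3 ≤ 1 at h6
    omega

theorem dj_KmDn : Dj (k := k) TyKm TyDn := by
  intro F g F' g' h h' hd
  obtain ⟨S, hS, -, ht⟩ := h
  obtain ⟨U, hU, ht'⟩ := h'
  exact tri_Km_Dn (ht2_ne hS) ht hU ht' hd

/-- **Cr (`c` odd) - Dn** -/
theorem dj_CrDn : Dj (k := k) TyCr TyDn := by
  intro F g F' g' h h' hd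
  obtain ⟨c, R, hc, hR, ho, ht⟩ := h
  obtain ⟨U, hU, ht'⟩ := h'
  have hRn := ht_ge_ne hR
  have hUn := hU.ne
  have hl := hU.len
  have hc1 := comps_ch' (show 1 ≤ c by omega)
  have hc2 : comps (H1.ch 2) = [H1.ch 1] := rfl
  have h5 := List.length_pos_iff.2 (comps_ne hRn)
  have hc3 : c ≠ 2 := by
    rintro rfl
    exact absurd ho (by decide)
  refine tri_dis ht ht' hd ?_ ?_ ?_ ?_ ?_
  · intro e
    have e1 := congrArg comps e
    simp only [comps_w1, hc1, hc2, comps, List.nil_append, List.cons_append, List.cons.injEq, and_true] at e1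
    have := H1.ch_inj e1.2
    omega
  · intro e
    -- (R)[c] = U[3]
    have e1 := congrArg (fun t => (comps t).length) e
    simp only [comps_w1, hc1, hc2, comps, List.nil_append, List.cons_append, List.length_cons,
      List.length_nil, List.length_append] at e1
    omega
  · intro e
    have e1 := congrArg (fun t => (comps t).length) e
    simp only [comps_w1, hc1, hc2, comps, List.nil_append, List.cons_append, List.length_cons,
      List.length_nil, List.length_append] at e1
    omega
  · intro e
    -- (U)[2] = R[c+1]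
    have e1 := rev_inj (congrArg comps e)
    simp only [comps_w1, hc2, comps, List.nil_append, List.reverse_append, List.reverse_cons,
      List.reverse_nil, List.singleton_append, List.cons_append, List.cons.injEq] at e1
    have := H1.ch_inj e1.1
    omega
  · intro e
    -- (U)[2] = [c]()R
    have e1 := congrArg (fun t => (comps t).length) e
    simp only [comps_w1, hc1, hc2, comps, List.nil_append, List.cons_append, List.length_cons,
      List.length_nil, List.length_append] at e1
    omega

/-- **Cl (`c` even) - Dn** -/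
theorem dj_ClDn : Dj (k := k) TyCl TyDn := by
  intro F g F' g' h h' hd
  obtain ⟨c, R, hc, hR, ho, ht⟩ := h
  obtain ⟨U, hU, ht'⟩ := h'
  have hRn := ht_ge_ne hR
  have hUn := hU.ne
  have hl := hU.len
  have hc1 := comps_ch' (show 1 ≤ c by omega)
  have hc2 : comps (H1.ch 2) = [H1.ch 1] := rfl
  have h5 := List.length_pos_iff.2 (comps_ne hRn)
  have hch : ∀ n, OddHC.ht (H1.ch n) = n := H1.ch_ht
  refine tri_dis ht ht' hd ?_ ?_ ?_ ?_ ?_
  · intro e
    -- [c](R) = (U)[2]
    have e1 := congrArg comps e
    simp only [comps_w1, hc1, hc2, comps, List.nil_append, List.cons_append, List.cons.injEq, and_true] at e1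
    rw [e1.2, hch] at hR
    omega
  · intro e
    -- [c](R) = U[3]
    have e1 := congrArg (fun t => (comps t).length) e
    simp only [comps_w1, hc1, hc2, comps, List.nil_append, List.cons_append, List.length_cons,
      List.length_nil, List.length_append] at e1
    omega
  · intro e
    have e1 := congrArg (fun t => (comps t).length) e
    simp only [comps_w1, hc1, hc2, comps, List.nil_append, List.cons_append, List.length_cons,
      List.length_nil, List.length_append] at e1
    omega
  · intro e
    -- (U)[2] = R()[c]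
    have e1 := congrArg (fun t => (comps t).length) e
    simp only [comps_w1, hc1, hc2, comps, List.nil_append, List.cons_append, List.length_cons,
      List.length_nil, List.length_append] at e1
    omega
  · intro e
    -- (U)[2] = [c+1]R
    have e1 := congrArg comps e
    simp only [comps_w1, hc2, comps, List.nil_append, List.cons.injEq] at e1
    have e2 : R = H1.ch 2 := comps_inj (e1.2.symm.trans hc2.symm)
    rw [e2, hch] at hR
    omega

/-- **Dn - Dn** -/
theorem dj_DnDn : Dj (k := k) TyDn TyDn := by
  intro F g F' g' h h' hd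
  obtain ⟨U, hU, ht⟩ := h
  obtain ⟨U', hU', ht'⟩ := h'
  have hc2 : comps (H1.ch 2) = [H1.ch 1] := rfl
  have key : ∀ {U U' : BinaryTree Unit}, DnU U' → w1 .nil U (H1.ch 2) ≠ w1 U' (H1.ch 2) .nil ∧
      w1 .nil U (H1.ch 2) ≠ w1 (H1.ch 2) .nil U' := by
    intro U U' hU'
    have hl := hU'.len
    constructor
    · intro e
      have e1 := congrArg (fun t => (comps t).length) e
      simp only [comps_w1, hc2, comps, List.nil_append, List.cons_append, List.length_cons,
        List.length_nil, List.length_append] at e1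
      omega
    · intro e
      have e1 := congrArg (fun t => (comps t).length) e
      simp only [comps_w1, hc2, comps, List.nil_append, List.cons_append, List.length_cons,
        List.length_nil, List.length_append] at e1
      omega
  refine tri_dis ht ht' hd ?_ (key hU').1 (key hU').2 (key hU).1 (key hU).2
  intro e
  have e1 := congrArg comps e
  simp only [comps_w1, comps, List.nil_append, List.cons.injEq] at e1
  exact ⟨rfl, e1.1, rfl⟩

/-! ### Contents -/

/-- the words of a DOWN link -/
theorem TyDn.cont1 (h : TyDn F g) : ∀ w ∈ g.B, (cont w.1).count 1 ≤ 2 ∧ (cont w.1).count 2 ≤ 1 ∧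
    ((cont w.1).count 1 = 2 → (cont w.1).count 2 = 1) := by
  obtain ⟨U, hU, ht⟩ := h
  have h4 := hU.h3
  have h1 := hU.c1
  have hs : 3 ≤ (cont U).sup := by rw [← ht_eq]; exact h4
  have h2 : (cont U).count 2 = 0 := hU.c2
  have r1 : (raise (cont U)).count 1 = (cont U).count 1 := count_raise 1 (by omega) (by omega)
  have r2 : (raise (cont U)).count 2 = (cont U).count 2 := count_raise 2 (by omega) (by omega)
  have c2 : cont (H1.ch 2) = {2} := H1.ch_cont 1
  have c0 : cont (.nil : BinaryTree Unit) = 0 := rfl
  have e12 : Multiset.count 1 ({2} : Multiset ℕ) = 0 := by decide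
  have e22 : Multiset.count 2 ({2} : Multiset ℕ) = 1 := by decide
  have r3 : raise ({2} : Multiset ℕ) = {3} := raise_single 2
  have e13 : Multiset.count 1 ({3} : Multiset ℕ) = 0 := by decide
  have e23 : Multiset.count 2 ({3} : Multiset ℕ) = 0 := by decide
  have e11 : Multiset.count 1 ({1} : Multiset ℕ) = 1 := by decide
  have e21 : Multiset.count 2 ({1} : Multiset ℕ) = 0 := by decide
  intro w hw
  rcases ht.words w hw with e | ⟨_, e | e⟩
  · rw [e, w1, app, cont_node, c2, Multiset.count_add, Multiset.count_add, r1, r2, e12, e22]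
    omega
  · rw [e, w1, cont_app, cont_node, c2, c0, add_zero, r3, Multiset.count_add, Multiset.count_add, e13, e23]
    omega
  · rw [e, w1, cont_app, cont_node, c2, c0, raise_zero, Multiset.count_add, Multiset.count_add,
      Multiset.count_add, Multiset.count_add, e12, e22, e11, e21]
    omega

/-- **Dn - S5** -/
theorem dj_DnS5 : Dj (k := k) TyDn TyS5 := by
  intro F g F' g' h h' _ w hw hw'
  have h1 := h.cont1 w hw
  obtain ⟨s, n, hs, hn, h2⟩ := h'.cases'
  have cs : cont (H1.ch s) = {s} := by
    obtain ⟨s', rfl⟩ : ∃ s', s = s' + 1 := ⟨s - 1, by omega⟩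
    exact H1.ch_cont s'
  have c0 : cont (.nil : BinaryTree Unit) = 0 := rfl
  have rs : raise ({s} : Multiset ℕ) = {s + 1} := raise_single s
  have rl : ∀ m, raise (Multiset.replicate (m + 1) 1) = {2} + Multiset.replicate m 1 := by
    intro m
    have h3 : (Multiset.replicate (m + 1) 1 : Multiset ℕ).sup = 1 := by
      apply le_antisymm
      · apply Multiset.sup_le.2
        intro x hx
        rw [Multiset.eq_of_mem_replicate hx]
      · exact Multiset.le_sup (Multiset.mem_replicate.2 ⟨by omega, rfl⟩)
    unfold raise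
    rw [h3, Multiset.replicate_succ, Multiset.erase_cons_head]
    rfl
  have n1 : ∀ x, x ≠ 1 → Multiset.count 1 ({x} : Multiset ℕ) = 0 := fun x hx => by
    rw [Multiset.count_singleton, if_neg hx.symm]
  have n2 : Multiset.count 2 ({2} : Multiset ℕ) = 1 := by decide
  have n11 : Multiset.count 1 ({1} : Multiset ℕ) = 1 := by decide
  have key : (3 ≤ (cont w.1).count 1 ∨ 2 ≤ (cont w.1).count 2) → False := by
    intro h3
    omega
  rcases h2 with h2 | h2 | h2
  · apply key
    left
    rcases IsTri.words h2 w hw' with e | ⟨_, e | e⟩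
    · rw [e, w1, cont_app, cont_node, cs, rs, c0, cont_lp29, Multiset.count_add, Multiset.count_replicate_self]
      omega
    · rw [e, w1, cont_app, cont_node, cs, c0, raise_zero, cont_lp29, Multiset.count_add, Multiset.count_add,
        Multiset.count_replicate_self]
      omega
    · rw [e, w1, app, cont_node, cs, cont_lp29, show n + 2 = (n + 1) + 1 from rfl, rl, Multiset.count_add,
        Multiset.count_add, Multiset.count_replicate_self]
      omega
  · apply key
    left
    rcases IsTri.words h2 w hw' with e | ⟨_, e | e⟩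
    · rw [e, w1, app, cont_node, cs, rs, cont_lp29, Multiset.count_add, Multiset.count_replicate_self]
      omega
    · rw [e, w1, cont_app, cont_node, cs, c0, add_zero, cont_lp29, show n + 2 = (n + 1) + 1 from rfl, rl,
        Multiset.count_add, Multiset.count_add, Multiset.count_replicate_self]
      omega
    · rw [e, w1, cont_app, cont_node, cs, c0, raise_zero, cont_lp29, Multiset.count_add,
        Multiset.count_add, Multiset.count_replicate_self, n11]
      omega
  · apply key
    have cl : cont (app (H1.ch s) (lp n)) = {s} + Multiset.replicate n 1 := by rw [cont_app, cs, cont_lp29]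
    have c1 : cont ((.nil : BinaryTree Unit) △ .nil) = {1} := rfl
    have c2 : cont (((.nil : BinaryTree Unit) △ .nil) △ .nil) = {2} := rfl
    have rc : (raise ({s} + Multiset.replicate n 1)).count 1 = n := by
      have h4 : ({s} + Multiset.replicate n 1 : Multiset ℕ).sup = s := by
        rw [sup_add', Multiset.sup_singleton]
        apply max_eq_left
        apply Multiset.sup_le.2
        intro x hx
        rw [Multiset.eq_of_mem_replicate hx]
        omega
      rw [count_raise 1 (by omega) (by omega), Multiset.count_add, Multiset.count_replicate_self, n1 s (by omega)]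
      omega
    rcases IsTri.words h2 w hw' with e | ⟨_, e | e⟩
    · left
      rw [e, w1, cont_app, c1, cont_node, cl, c2, Multiset.count_add, Multiset.count_add, rc, n11]
      omega
    · left
      rw [e, w1, cont_app, cl, cont_node, c2, c1, show raise ({2} : Multiset ℕ) = {3} from raise_single 2,
        Multiset.count_add, Multiset.count_add, Multiset.count_add, Multiset.count_replicate_self, n11]
      omega
    · right
      rw [e, w1, cont_app, c2, cont_node, c1, cl, show raise ({1} : Multiset ℕ) = {2} from raise_single 1,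
        Multiset.count_add, Multiset.count_add, n2]
      omega

/-! ### Windows -/

/-- **A - Dn** -/
theorem dj_ADn : Dj (k := k) TyA TyDn := by
  intro F g F' g' h h' _
  obtain ⟨U, hU, ht⟩ := h'
  exact h.disj_C ht hU.um

/-- **T - Dn** -/
theorem dj_TDn : Dj (k := k) TyT TyDn := by
  intro F g F' g' h h' _ w hw hw'
  obtain ⟨U, hU, ht⟩ := h'
  obtain ⟨b, m, a, i, h1, hi, e1⟩ := h.word hw
  rcases ht.words w hw' with e2 | ⟨_, e2 | e2⟩
  · exact H1.t3_Chost h1.mpos hi le_rfl hU.hd (e1.symm.trans e2)
  · -- `U[3]` has no part 2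
    have hR : T2 (H1.R3 b m a) := by
      refine ⟨Multiset.count_pos.1 (by rw [H1.count2_R3]; exact h1.pos), ?_⟩
      rw [← ht_eq, H1.ht_R3]
    have hS : T2 (H1.S3 m a) := by
      refine ⟨Multiset.count_pos.1 (by rw [H1.count2_S3]; exact h1.pos), ?_⟩
      rw [← ht_eq, (H1.dat3 b m a).htS, H1.ht_R3]
    have h2 : 2 ∈ cont w.1 := by
      rw [e1]
      exact (T2.words hR hS hi).1
    rw [e2, w1, cont_app, cont_node, show cont (H1.ch 2) = {2} from H1.ch_cont 1, cont_nil, add_zero,
      raise_single, Multiset.mem_add, Multiset.mem_singleton] at h2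
    rcases h2 with h2 | h2
    · have := Multiset.count_pos.2 h2
      have := hU.c2
      omega
    · omega
  · exact H1.t3_cbR h1.mpos h1.pos hi le_rfl hU.hd (e1.symm.trans e2)

/-- **J1 - Dn** -/
theorem dj_DnJs (h : TyDn F g) (h' : J1.TyJs F' g') (hd : ∀ c ∈ F, c ∉ F') : ∀ w ∈ g.B, w ∉ g'.B := by
  obtain ⟨U, hU, ht⟩ := h
  refine J1.js_C ht h' hd le_rfl hU.h3 hU.fb ?_
  intro n e
  exact hU.two _ e

/-- **J1 (mirrored) - Dn** -/
theorem dj_DnJt (h : TyDn F g) (h' : J1.TyJt F' g') (hk : 13 ≤ k) (hd : ∀ c ∈ F, c ∉ F') : ∀ w ∈ g.B, w ∉ g'.B := by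
  obtain ⟨U, hU, ht⟩ := h
  refine J1.jt_C ht h' hd le_rfl hU.h3 hk ?_
  rintro s ⟨h1, -⟩
  omega

end Pool.OddHC
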