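import Pool.Agent.Work.MP_8f87b2_h29.DnRows
import Pool.Agent.Work.MP_8f87b2_h4.Links
import Pool.Agent.Work.MP_8f87b2_h84.JEW1
import Pool.Agent.Work.MP_8f87b2_h43.JVW

/-!
# MP_8f87b2_co: the DOWN links (`c = 2`) against the gadgets JV, J3V, JE, words (helper29)

host `(U)[2]`, new words `U[3]`, `[2]()U`, `DnU U`. The exact lists: JV over `Z` only if `Z = (U)`; J3V only if `R = (U)`, or `B`
empty and `S = (U)`; JE only if `R = (U)`.
-/

set_option autoImplicit false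
set_option linter.all false

namespace Pool.OddHC

open Finset Equiv BinaryTree Pool.Agent.Work.MP_8f87b2_co

variable {k : ℕ} {F F' : Set (Cyc k)} {g g' : DG k} {U R B S : BinaryTree Unit}

theorem DnU.hd_of (h : DnU U) {A X : BinaryTree Unit} (e : U = A △ X) : H1.gd A := by
  subst e
  exact h.hd

theorem not_gd_nil_node {X : BinaryTree Unit} (h : H1.gd (.nil △ X)) : X = .nil ∧ False := by
  rcases h with h | ⟨_, h⟩
  · exact absurd (H1.node_inj h).1 (by simp)
  · exact absurd rfl (H1.gd_ne h.1)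

/-- **Dn - JV** : only `Z = (U)` -/
theorem JVW.dnW (h : TyC 2 U F g) (hU : DnU U) (h' : Is9 .nil .nil S F' g') (hN : JVW.NBc S)
    (hd : ∀ c ∈ F, c ∉ F') (h1 : S ≠ U △ .nil) : ∀ w ∈ g.B, w ∉ g'.B := by
  have hh := JVW.ht3 h'
  have hS := JVW.ne h'
  have hRn := hU.ne
  have hc1 : comps (H1.ch 2) = [H1.ch 1] := rfl
  obtain ⟨A, L, eA⟩ := JVW.cne hRn
  have hA := H1.gd_ne (hU.first eA)
  refine JVW.tri9 h h' hd ?_ ?_ ?_ ?_
  · rintro (e | e) <;> rw [comps_w1, hc1] at e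
    · apply h1
      apply comps_inj
      have e2 : [U] ++ [H1.ch 1] = comps S ++ [.nil △ .nil] := e
      exact (List.append_cancel_right e2).symm
    · change [U, _] = _ at e
      rw [List.cons.injEq] at e
      have h6 := hU.h3
      rw [e.1] at h6
      change 3 ≤ 1 at h6
      omega
  · intro e
    have e2 : comps (w1 .nil U (H1.ch 2)) = [U, H1.ch 1] := by rw [comps_w1, hc1]; rfl
    exact JVW.old_else hh e e2 hRn (L' := [U]) (by rw [e2]; rfl) (ch_ne (le_refl 1)) (by rw [e2]; simp)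
  · intro e
    have e2 : comps (w1 U (H1.ch 2) .nil) = A :: (L ++ [H1.ch 2]) := by rw [comps_w1, eA]; rfl
    exact JVW.old_else hh e e2 hA (L' := A :: L) (C := H1.ch 2) (by rw [e2]; rfl) (ch_ne (by omega))
      (by rw [e2]; simp)
  · intro e
    obtain ⟨L2, C, eC⟩ := JVW.cne' hRn
    have e2 : comps (w1 (H1.ch 2) .nil U) = H1.ch 1 :: .nil :: (L2 ++ [C]) := by rw [comps_w1, hc1, eC]; rfl
    by_cases hC : C = .nil
    · subst hC
      rcases JVW.old_last hN hh e (L := H1.ch 1 :: .nil :: L2) (by rw [e2]; rfl) with h5 | h5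
      · exact absurd (congrArg List.length h5) (by simp)
      · rw [List.cons.injEq] at h5
        exact hN.sq2 .nil (by rw [← h5.2]; simp) rfl
    · exact JVW.old_else hh e e2 (ch_ne (le_refl 1)) (L' := H1.ch 1 :: .nil :: L2) (C := C)
        (by rw [e2]; rfl) hC (by rw [e2]; simp)

namespace J3

/-- common words of a DOWN triple `(U)[2]; U[3], [2]()U` and the 19 words -/
theorem SqD.dnW (h : SqD k R B S) {w0 : X k} (hU : DnU U) (ht : TyC 2 U F g)
    (hd : ∀ d ∈ F, d ≠ cyc (sX R B S w0 0) ∧ d ≠ cyc (sX R B S w0 1)) {w : X k} (hw : w ∈ g.B)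
    {i : ℕ} (hi : i < 20) (h9 : i ≠ 9) (e : w.1 = H1.W R .nil B S i) :
    (i = 0 ∧ R = U △ .nil) ∨ (i = 13 ∧ B = .nil ∧ S = U △ .nil) := by
  have hR := h.ne
  have hS := h.neS
  have hUn := hU.ne
  have lU : 2 ≤ H1.len U := by
    by_contra hlt
    have l1 := H1.len_pos hUn
    have l2 : H1.len U = 1 := by omega
    cases U with
    | nil => exact hUn rfl
    | node _ A X =>
      by_cases hX : X = .nil
      · subst hX
        exact hU.two A rfl
      · have := H1.len_pos hX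
        change H1.len (A △ X) = 1 at l2
        rw [len_node] at l2
        omega
  have lR := H1.len_pos hR
  have lS := H1.len_pos hS
  have hla : OddHC.ht (.nil △ .nil : BinaryTree Unit) = 1 := rfl
  have lfn : (.nil △ .nil : BinaryTree Unit) ≠ .nil := by simp
  have c2n : (((.nil : BinaryTree Unit) △ .nil) △ .nil) ≠ .nil := by simp
  have nlf : U ≠ .nil △ .nil := by
    rintro rfl
    have := hU.h3
    rw [hla] at this
    omega
  have ngd : ¬ H1.gd (.nil △ .nil : BinaryTree Unit) := fun h => (not_gd_nil_node h).2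
  have nfb : ∀ X : BinaryTree Unit, U ≠ .nil △ X := fun X e0 => H1.gd_ne (hU.hd_of e0) rfl
  have nfb2 : ∀ Z X : BinaryTree Unit, U ≠ (.nil △ Z) △ X := fun Z X e0 => (not_gd_nil_node (hU.hd_of e0)).2
  rcases ht.words w hw with e1 | ⟨hF, e1 | e1⟩
  · -- host `(U)[2]`
    have e2 : H1.W R .nil B S i = app (U △ .nil) ((.nil △ .nil) △ .nil) := e.symm.trans e1
    rcases h.lstA hi h9 lfn e2 with ⟨q, _, e3⟩ | ⟨_, R', _, e4⟩ | ⟨_, R', _, e4⟩ | ⟨_, e3, _⟩ |
      ⟨_, S', e3, e4⟩ | ⟨_, S', e3, e4⟩ |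
      ⟨q, e3, e5⟩ | ⟨_, _, _, e4⟩ | ⟨_, B', e3, e4⟩ | ⟨_, _, _, e4⟩ | ⟨_, B', e3, e4⟩ | ⟨_, e3, _⟩ |
      ⟨_, _, e4⟩ | ⟨_, _, e4⟩ | ⟨_, _, e4⟩ | ⟨_, _, e4⟩
    · exact Or.inl ⟨q, e3.symm⟩
    · exact absurd (H1.node_inj e4).1 nlf
    · exact absurd (H1.node_inj e4).1 hUn
    · exact absurd e3.symm (ne_nil_node h.one)
    · by_cases hB : B = .nil
      · subst hB
        exact absurd (H1.node_inj e4).1 nlf
      · have l := congrArg H1.len e4
        have := H1.len_pos hB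
        rw [H1.len_app, len_node, len_node, len_nil] at l
        omega
    · by_cases hB : B = .nil
      · subst hB
        exact absurd (H1.node_inj e4).1 hUn
      · have l := congrArg H1.len e4
        have := H1.len_pos hB
        rw [H1.len_app, len_node, len_node, len_nil] at l
        omega
    · right
      by_cases hB : B = .nil
      · exact ⟨q, hB, e5.symm⟩
      · have l := congrArg H1.len e3
        have := H1.len_pos hB
        rw [H1.len_app, len_node, len_nil] at l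
        omega
    · exact absurd e4 (by simp)
    · exact absurd (H1.node_inj e4).1 (nfb S)
    · exact absurd (H1.node_inj e4).1 hUn
    · exact absurd (H1.node_inj e4).1 hUn
    · exact absurd e3.symm (ne_nil_node h.oneB)
    · exact absurd e4 (by simp)
    · exact absurd e4 (by simp)
    · exact absurd e4 (by simp)
    · exact absurd e4 (by simp)
  · -- new `U[3]`
    have e2 : H1.W R .nil B S i = app U (((.nil △ .nil) △ .nil) △ .nil) := e.symm.trans e1
    have cw : cyc (sX R B S w0 0) ≠ cyc w ∧ cyc (sX R B S w0 1) ≠ cyc w :=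
      ⟨fun h => (hd _ hF).1 h.symm, fun h => (hd _ hF).2 h.symm⟩
    have ew : w = sX R B S w0 i := Subtype.ext (by rw [e, h.word w0 hi])
    rcases h.lstA hi h9 c2n e2 with ⟨_, e3, _⟩ | ⟨_, R', _, e4⟩ | ⟨_, R', _, e4⟩ | ⟨_, _, e3⟩ |
      ⟨rfl, _⟩ | ⟨rfl, _⟩ |
      ⟨_, e3, _⟩ | ⟨_, _, _, e4⟩ | ⟨_, B', _, e4⟩ | ⟨_, _, _, e3⟩ | ⟨_, B', _, e4⟩ | ⟨_, _, e4⟩ |
      ⟨_, _, e4⟩ | ⟨_, _, e4⟩ | ⟨_, _, e4⟩ | ⟨_, _, e4⟩
    · exact absurd (H1.node_inj e3).1 (by simp)
    · exact absurd e4 (nfb2 .nil R')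
    · exact absurd e4 (nfb _)
    · exact absurd e3 nlf
    · exact absurd (by rw [ew, cyc_eq.2 (h.same w0 (i := 0) (j := 10) (by simp))]) cw.1
    · exact absurd (by rw [ew, cyc_eq.2 (h.same w0 (i := 1) (j := 11) (by simp))]) cw.2
    · by_cases hB : B = .nil
      · subst hB
        exact absurd (H1.node_inj e3).1 (by simp)
      · have l := congrArg H1.len e3
        have := H1.len_pos hB
        rw [H1.len_app, len_node, len_node, len_nil] at l
        omega
    · exact absurd e4 hUn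
    · exact absurd e4 (nfb2 S B')
    · exact absurd e3 nlf
    · exact absurd e4 (nfb _)
    · exact absurd e4 (nfb _)
    · exact absurd e4 hUn
    · exact absurd e4 hUn
    · exact absurd e4 hUn
    · exact absurd e4 hUn
  · -- new `[2]()U`
    have e2 : H1.W R .nil B S i = (.nil △ .nil) △ (.nil △ U) := e.symm.trans e1
    have cw : cyc (sX R B S w0 0) ≠ cyc w ∧ cyc (sX R B S w0 1) ≠ cyc w :=
      ⟨fun h => (hd _ hF).1 h.symm, fun h => (hd _ hF).2 h.symm⟩
    have ew : w = sX R B S w0 i := Subtype.ext (by rw [e, h.word w0 hi])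
    rcases h.fstA hi h9 lfn e2 with ⟨rfl, _⟩ | ⟨rfl, _⟩ | ⟨_, _, e3⟩ | ⟨_, _, e3⟩ | ⟨_, e3, _⟩ |
      ⟨_, _, e3⟩ | ⟨_, hB, _, e3⟩ | ⟨rfl, _⟩ | ⟨rfl, _⟩ | ⟨_, e3, e4⟩ | ⟨_, S', e3, e4⟩ | ⟨_, e3, _⟩ |
      ⟨_, S', e3, e4⟩ | ⟨_, _, e3⟩ | ⟨_, _, e3⟩
    · exact absurd (by rw [ew]) cw.1
    · exact absurd (by rw [ew]) cw.2
    · exact absurd e3 (by simp)
    · exact absurd e3.symm (ne_nil_node h.one)
    · exact absurd e3.symm (ne_nil_node h.one)
    · exact absurd e3 (by simp)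
    · exact absurd e3.symm (ne_nil_node h.oneS)
    · exact absurd (by rw [ew, cyc_eq.2 (h.same w0 (i := 0) (j := 10) (by simp))]) cw.1
    · exact absurd (by rw [ew, cyc_eq.2 (h.same w0 (i := 1) (j := 11) (by simp))]) cw.2
    · exact absurd e3.symm (ne_nil_node h.oneS)
    · by_cases hS' : S' = .nil
      · subst hS'
        have e5 : BinaryTree.nil △ U = (app B (.nil △ .nil)) △ .nil := e4
        exact absurd (H1.node_inj e5).2 hUn
      · exact (cnt_second (A := .nil △ .nil) (by rw [← e3]; exact h.oneS) hS' e4.symm).elim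
    · exact absurd (H1.node_inj e3).2.symm hS
    · by_cases hS' : S' = .nil
      · subst hS'
        have e5 : BinaryTree.nil △ U = B △ (.nil △ .nil) := e4
        exact absurd (H1.node_inj e5).2 nlf
      · exact (cnt_second (A := .nil △ .nil) (by rw [← e3]; exact h.oneS) hS' e4.symm).elim
    · exact absurd e3 (by simp)
    · exact absurd e3 (by simp)

end J3

open J3

/-- **Dn - JE** : only `R = (U)` -/
theorem TyJE.dnW (h : TyJE R F g) (hU : DnU U) (ht : TyC 2 U F' g') (hd : ∀ c ∈ F', c ∉ F)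
    {w : X k} (hw : w ∈ g.B) (hw' : w ∈ g'.B) : R = U △ .nil := by
  obtain ⟨B, S, w0, h1, hp, hB, hF, _⟩ := h.inn
  obtain ⟨i, hi, rfl⟩ := hB w hw
  rw [hF] at hd
  have d1 : ∀ c ∈ F', c ≠ cyc (sX R B S w0 0) ∧ c ≠ cyc (sX R B S w0 1) :=
    fun c hc => ⟨fun e => hd c hc ⟨0, by decide, e⟩, fun e => hd c hc ⟨1, by decide, e⟩⟩
  by_cases h9 : i = 9
  · subst h9
    have e9 : (sX R B S w0 9).1 = (R △ .nil) △ .nil := h1.word w0 (by norm_num)
    exact (tri9 ht hU.ne (Or.inr (ch_ne (by omega))) hw' e9).elim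
  · have hi20 : i < 20 := (by decide : ∀ i ∈ ixG13, i < 20) i hi
    have hx : ∀ i ∈ ixG13, i ≠ 13 := by decide
    rcases h1.dnW hU ht d1 hw' hi20 h9 (h1.word w0 hi20) with ⟨_, e1⟩ | ⟨e1, _⟩
    · exact e1
    · exact absurd e1 (hx i hi)

theorem TyJE.disj_Dn29 (h : TyJE R F g) (hU : DnU U) (ht : TyC 2 U F' g') (hd : ∀ c ∈ F', c ∉ F)
    (hn : R ≠ U △ .nil) : ∀ w ∈ g.B, w ∉ g'.B := fun w hw hw' => hn (h.dnW hU ht hd hw hw')

/-- **Dn - J3V** : only `R = (U)`, or `B` empty and `S = (U)` -/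
theorem TyC.dn_J3V (ht : TyC 2 U F g) (hU : DnU U) {w0 : X k} (h : SqD k R B S)
    (hd : ∀ c ∈ F, c ∉ ({cyc (sX R B S w0 0), cyc (sX R B S w0 1), cyc (sX R B S w0 2)} : Set (Cyc k)))
    (hn : R ≠ U △ .nil) (hn' : B = .nil → S ≠ U △ .nil) : ∀ w ∈ g.B, w ∉ (gadS (sX R B S w0)).B := by
  intro w hw hw'
  obtain ⟨i, hi, h9, rfl⟩ := mem_gadS.1 hw'
  have hd' : ∀ x ∈ F, x ≠ cyc (sX R B S w0 0) ∧ x ≠ cyc (sX R B S w0 1) := by
    intro x hx
    constructor
    · rintro rfl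
      exact hd _ hx (Or.inl rfl)
    · rintro rfl
      exact hd _ hx (Or.inr (Or.inl rfl))
  rcases h.dnW (w0 := w0) hU ht hd' hw hi h9 (h.word w0 hi) with ⟨_, e1⟩ | ⟨_, e1, e2⟩
  · exact hn e1
  · exact hn' e1 e2

end Pool.OddHC
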