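import Pool.Agent.Work.MP_8f87b2_h2.KHp
import Pool.Agent.Work.MP_8f87b2_h27.DisKm
import Pool.Agent.Work.MP_8f87b2_h13.A0Km
import Pool.Agent.Work.MP_8f87b2_h62.W3f

/-!
# MP_8f87b2_co: the rows K - K' and K' - T (words), helper29
-/

set_option autoImplicit false
set_option linter.all false

namespace Pool.OddHC

open Finset Equiv BinaryTree Pool.Agent.Work.MP_8f87b2_co

variable {k : ℕ} {F F' : Set (Cyc k)} {g g' : DG k} {U S : BinaryTree Unit}

/-- **K - K'** : hosts `(S)()` and `()(U)` -/
theorem tri_K_Km (hS : 3 ≤ OddHC.ht S) (ht : TyK S F g) (hU : U ≠ .nil) (ht' : TyK' U F' g')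
    (hd : ∀ c ∈ F, c ∉ F') : ∀ w ∈ g.B, w ∉ g'.B := by
  have hSn : S ≠ .nil := by
    rintro rfl
    rw [OddHC.ht] at hS
    omega
  have h5 := List.length_pos_iff.2 (comps_ne hU)
  have h6 := List.length_pos_iff.2 (comps_ne hSn)
  refine tri_dis ht ht' hd ?_ ?_ ?_ ?_ ?_
  · intro e
    have e1 := congrArg comps e
    simp only [comps_w1, comps, List.nil_append, List.cons_append, List.cons.injEq] at e1
    exact absurd e1.1 hSn
  · -- (S)() = U()()
    intro e
    have e1 := congrArg (fun t => (comps t).length) e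
    simp only [comps_w1, comps, List.nil_append, List.cons_append, List.length_cons,
      List.length_nil, List.length_append] at e1
    omega
  · -- (S)() = (())U
    intro e
    have e1 := congrArg comps e
    simp only [comps_w1, comps, List.nil_append, List.cons_append, List.cons.injEq] at e1
    rw [e1.1] at hS
    change 3 ≤ 1 at hS
    omega
  · -- ()(U) = S(())
    intro e
    have e1 := congrArg comps e
    simp only [comps_w1, comps, List.nil_append, List.cons_append] at e1
    cases S with
    | nil => exact hSn rfl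
    | node _ A X =>
      rw [comps_node, List.cons_append, List.cons.injEq] at e1
      have e2 := congrArg List.length e1.2
      simp only [List.length_cons, List.length_nil, List.length_append] at e2
      have hX : X = .nil := by
        by_contra h
        have := List.length_pos_iff.2 (comps_ne h)
        omega
      subst hX
      have e3 : A = .nil := e1.1.symm
      subst e3
      change 3 ≤ 1 at hS
      omega
  · -- ()(U) = ()()S
    intro e
    have e1 := congrArg (fun t => (comps t).length) e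
    simp only [comps_w1, comps, List.nil_append, List.cons_append, List.length_cons,
      List.length_nil, List.length_append] at e1
    omega

theorem dj_KhKm : Dj (k := k) TyKh TyKm := by
  intro F g F' g' h h' hd
  obtain ⟨S, hS, ht⟩ := h
  obtain ⟨U, hU, -, ht'⟩ := h'
  exact tri_K_Km hS.ht3 ht (ht2_ne hU) ht' hd

namespace H1

variable {b m a : ℕ}

/-- reversed words: the first component other than `()` ends with `()` -/
def t3e : BinaryTree Unit → Bool
  | .nil => false
  | .node _ A X => if isNil A = true then t3e X else lastB A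

theorem t3e_lv (n : ℕ) (X : BinaryTree Unit) : t3e (app (lv n .nil) X) = t3e X := by
  induction n with
  | zero => rfl
  | succ n ih => exact ih

theorem t3e_node {A X : BinaryTree Unit} (h : A ≠ .nil) : t3e (A △ X) = lastB A := by
  rw [t3e, isNil_f.2 h]
  rfl

theorem t3e_bead (X : BinaryTree Unit) : t3e (.nil △ X) = t3e X := rfl

theorem _root_.Pool.OddHC.KmSh.t3e (h : KmSh U) : t3e (t3rv U) = true := by
  obtain ⟨V, A, n, hA, rfl⟩ := h
  have e : t3rv (lp n) = lv n .nil := by
    unfold lp
    rw [t3rv_lv]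
    rfl
  rw [t3rv_app, t3rv_node, e, app_assoc, t3e_lv]
  change t3e (app A (.nil △ .nil) △ t3rv V) = true
  rw [t3e_node (app_ne (by simp)), lastB_app (by simp), lastB_one]
  rfl

theorem t3e_th {b : ℕ} {C X : BinaryTree Unit} (hC : C ≠ .nil) (hl : lastB C = false) :
    t3e (app (th b .nil) (C △ X)) = false := by
  cases b with
  | zero =>
    change t3e (C △ X) = false
    rw [t3e_node hC, hl]
  | succ b =>
    rw [th]
    change t3e (((.nil △ .nil) △ .nil) △ app (th b .nil) (C △ X)) = false
    rw [t3e_node (by simp)]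
    rfl

theorem lastB_G (ha : 1 ≤ a) : lastB (t3G m a) = false := by
  unfold t3G
  rw [lastB_cons (L3_ne ha), lastB_L3 ha]

theorem t3e_rvR (ha : 1 ≤ a) (X : BinaryTree Unit) : t3e (app (t3rv (R3 b m a)) X) = false := by
  rw [rv_R3, app_assoc]
  exact t3e_th (by unfold t3G; simp) (lastB_G ha)

theorem t3e_SB (ha : 1 ≤ a) : t3e (t3rv (S3 m a △ th b .nil)) = false := by
  rw [t3rv_node, t3rv_th, rv_nil]
  change t3e (app (th b .nil) (S3 m a △ .nil)) = false
  exact t3e_th (by unfold S3; simp) (lastB_S3 ha)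

theorem t3e_bR (ha : 1 ≤ a) : t3e (t3rv (.nil △ (t3G m a △ th b .nil))) = false := by
  change t3e (t3rv (.nil △ R3 b m a)) = false
  rw [t3rv_node]
  exact t3e_rvR ha _

/-- host `()(U)` -/
theorem t3_Kmh (hm : 1 ≤ m) (ha : 1 ≤ a) {i : ℕ} (hi : i < 20) (hU : KmSh U)
    (e : w3 b m a i = .nil △ (U △ .nil)) : False := by
  obtain ⟨m, rfl⟩ : ∃ m', m = m' + 1 := ⟨m - 1, by omega⟩
  have h := hU.t3e
  rw [w3_fw b _ a i hi] at e
  have key : U = .nil △ (t3G (m + 1) a △ th b .nil) ∨ U = S3 (m + 1) a △ th b .nil ∨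
      U = .nil △ .nil := by
    interval_cases i <;> rcases b with _ | _ | b <;>
      simp [fw3, th, app, L3_m, t3G, app_eq_nil, S3] at e ⊢ <;>
      first
        | exact Or.inl e.symm
        | exact Or.inr (Or.inl e.symm)
        | exact Or.inr (Or.inr e.symm)
        | exact (e : False).elim
        | simp_all
  rcases key with rfl | rfl | rfl
  · rw [t3e_bR ha] at h; cases h
  · rw [t3e_SB ha] at h; cases h
  · cases h

/-- new `(())U` -/
theorem t3_Kmt (hm : 1 ≤ m) (ha : 1 ≤ a) {i : ℕ} (hi : i < 20) (hU : KmSh U)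
    (e : w3 b m a i = (.nil △ .nil) △ U) : False := by
  obtain ⟨m, rfl⟩ : ∃ m', m = m' + 1 := ⟨m - 1, by omega⟩
  have h := hU.t3e
  rw [w3_fw b _ a i hi] at e
  have key : U = .nil △ (t3G (m + 1) a △ th b .nil) ∨ U = S3 (m + 1) a △ th b .nil := by
    interval_cases i <;> rcases b with _ | _ | b <;>
      simp [fw3, th, app, L3_m, t3G, app_eq_nil, S3] at e ⊢ <;>
      first
        | exact Or.inl e.symm
        | exact Or.inr e.symm
        | exact (e : False).elim
        | simp_all
  rcases key with rfl | rfl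
  · rw [t3e_bR ha] at h; cases h
  · rw [t3e_SB ha] at h; cases h

/-- new `U()()` -/
theorem t3_Kmr (hm : 1 ≤ m) (ha : 1 ≤ a) {i : ℕ} (hi : i < 20) (hU : KmSh U)
    (e : w3 b m a i = app U (.nil △ (.nil △ .nil))) : False := by
  have h := hU.t3e
  have e2 := congrArg t3rv e
  rw [rv_w3 b m _ i hi, t3rv_app] at e2
  have e3 : rw3 b m a i = .nil △ (.nil △ t3rv U) := e2
  obtain ⟨a, rfl⟩ : ∃ a', a = a' + 1 := ⟨a - 1, by omega⟩
  have hS : ∀ X, t3rv (S3 m (a + 1)) = app (lv2 (a + 1) .nil) X → True := fun _ _ => trivial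
  have hs : ∃ Z, t3rv (S3 m (a + 1)) = (.nil △ .nil) △ Z := ⟨_, by rw [rv_S3]; rfl⟩
  obtain ⟨Z, hZ⟩ := hs
  have key : t3e (t3rv U) = false := by
    interval_cases i
    · exact absurd (node_inj e3).1 (by simp)
    · have e4 : BinaryTree.nil △ (.nil △ (.nil △ t3rv (R3 b m (a + 1)))) = .nil △ (.nil △ t3rv U) := e3
      rw [← (node_inj (node_inj e4).2).2, t3e_bead]
      have := t3e_rvR (b := b) (m := m) (a := a + 1) (by omega) .nil
      rwa [app_nil] at this
    · have e4 : BinaryTree.nil △ (.nil △ app (t3rv (R3 b m (a + 1))) (.nil △ .nil)) = .nil △ (.nil △ t3rv U) := e3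
      rw [← (node_inj (node_inj e4).2).2]
      exact t3e_rvR (by omega) _
    · exact absurd (node_inj e3).1 (app_ne (by simp))
    · exfalso
      have e4 : app (t3rv (R3 b m (a + 1))) ((.nil △ (.nil △ .nil)) △ .nil) = .nil △ (.nil △ t3rv U) := e3
      rw [rv_R3] at e4
      cases b <;> exact absurd (node_inj e4).1 (by simp [t3G])
    · exfalso
      have e4 : app (t3rv (R3 b m (a + 1))) (.nil △ ((.nil △ .nil) △ .nil)) = .nil △ (.nil △ t3rv U) := e3
      rw [rv_R3] at e4
      cases b <;> exact absurd (node_inj e4).1 (by simp [t3G])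
    · exact absurd (node_inj e3).1 (by simp)
    · exact absurd (node_inj e3).1 (by simp)
    · exact absurd (node_inj e3).1 (by simp [R3])
    · have e4 : BinaryTree.nil △ ((R3 b m (a + 1) △ .nil) △ .nil) = .nil △ (.nil △ t3rv U) := e3
      exact absurd (node_inj (node_inj e4).2).1 (by simp)
    · exfalso
      have e4 : app (t3rv (S3 m (a + 1))) (((.nil △ .nil) △ .nil) △ th b .nil) = .nil △ (.nil △ t3rv U) := e3
      rw [hZ] at e4
      exact absurd (node_inj e4).1 (by simp)
    · exfalso
      have e4 : app (t3rv (S3 m (a + 1))) (.nil △ (.nil △ (.nil △ th b .nil))) = .nil △ (.nil △ t3rv U) := e3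
      rw [hZ] at e4
      exact absurd (node_inj e4).1 (by simp)
    · have e4 : BinaryTree.nil △ (.nil △ app (th b .nil) (S3 m (a + 1) △ .nil)) = .nil △ (.nil △ t3rv U) := e3
      rw [← (node_inj (node_inj e4).2).2]
      exact t3e_th (by unfold S3; simp) (lastB_S3 (by omega))
    · exact absurd (node_inj e3).1 (app_ne (by simp))
    · exfalso
      have e4 : app (th b .nil) ((.nil △ (.nil △ S3 m (a + 1))) △ .nil) = .nil △ (.nil △ t3rv U) := e3
      cases b <;> exact absurd (node_inj e4).1 (by simp)
    · exfalso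
      have e4 : app (th b .nil) (S3 m (a + 1) △ ((.nil △ .nil) △ .nil)) = .nil △ (.nil △ t3rv U) := e3
      cases b <;> exact absurd (node_inj e4).1 (by simp [S3])
    · exact absurd (node_inj e3).1 (by simp)
    · exact absurd (node_inj e3).1 (by simp)
    · exfalso
      have e4 : th b .nil △ app (t3rv (S3 m (a + 1))) (.nil △ (.nil △ .nil)) = .nil △ (.nil △ t3rv U) := e3
      have e5 := (node_inj e4).2
      rw [hZ] at e5
      exact absurd (node_inj e5).1 (by simp)
    · have e4 : BinaryTree.nil △ (app (S3 m (a + 1)) (th b .nil △ .nil) △ .nil) = .nil △ (.nil △ t3rv U) := e3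
      exact absurd (node_inj (node_inj e4).2).1 (app_ne (by simp))
  rw [key] at h
  cases h

end H1

/-- **T - K'** -/
theorem TyT.disj_Km29 (h : TyT F g) (hU : KmSh U) (h' : TyK' U F' g') : ∀ w ∈ g.B, w ∉ g'.B := by
  intro w hw hw'
  obtain ⟨b, m, a, i, h1, hi, e1⟩ := h.word hw
  rcases h'.words w hw' with e2 | ⟨_, e2 | e2⟩
  · exact H1.t3_Kmh h1.mpos h1.pos hi hU (e1.symm.trans e2)
  · exact H1.t3_Kmr h1.mpos h1.pos hi hU (e1.symm.trans e2)
  · exact H1.t3_Kmt h1.mpos h1.pos hi hU (e1.symm.trans e2)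

end Pool.OddHC
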