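import Pool.Agent.Work.MP_8f87b2_h29.DnRows
import Pool.Agent.Work.MP_8f87b2_h13.R3DnB
import Pool.Agent.Work.MP_8f87b2_h25.J2A
import Pool.Agent.Work.MP_8f87b2_h99.J2I

/-!
# MP_8f87b2_co: the insides of the DOWN links have their bead at the top level (`bv 0`), helper29
-/

set_option autoImplicit false
set_option linter.all false

namespace Pool.OddHC

open Finset Equiv BinaryTree Pool.Agent.Work.MP_8f87b2_co

variable {k : ℕ} {F F' : Set (Cyc k)} {g g' : DG k} {U : BinaryTree Unit}

/-- the shape: no bead, or `U = V()[n+1]` with `V` free of beads -/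
theorem DnSh.bv0 (h : DnSh U) : J3.bv 0 U := by
  have h1 := h.one
  rcases h.sh with ⟨V, n, hn, rfl⟩ | ⟨V, n, hn, rfl, hc⟩
  · have e : cont (app V (.nil △ pc (n + 1))) = cont V + (cont (pc (n + 1)) + {1}) := by
      rw [cont_app, cont_node, cont_nil, raise_zero, add_comm {1} _]
    rw [e, Multiset.count_add, Multiset.count_add, Multiset.count_singleton_self] at h1
    have hV : (cont V).count 1 = 0 := by omega
    have hp : (cont (pc (n + 1))).count 1 = 0 := by omega
    exact J3.bv_app ((J3.nbb_one25 hV).bv 0) (J3.bv_leaf ((J3.nbb_one25 hp).bv 0))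
  · refine (J3.nbb_one25 ?_).bv 0
    rw [Multiset.count_eq_zero]
    intro h0
    have := hc 1 h0
    omega

theorem bv0_of_c1 (h : (cont U).count 1 = 0) : J3.bv 0 U := (J3.nbb_one25 h).bv 0

/-- inner words of J2B against the DOWN links -/
theorem J3.J2In.inner_Dn29 (h : J3.J2In F g) (h' : TyC 2 U F' g') (hU : DnSh U ∨ (cont U).count 1 = 0) :
    ∀ p ∈ g.arcs, ∀ w ∈ innA p, w ∉ g'.B :=
  h.inner_Cr h' (hU.elim (fun h => h.bv0) bv0_of_c1)

end Pool.OddHC
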