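import Pool.Agent.Work.MP_8f87b2_h29.EdWin
import Pool.Agent.Work.MP_8f87b2_h13.TyRq

/-!
# MP_8f87b2_co: the right bare windows against the deep E triples, exact form (helper29)

`HM.NodeM.ed_tri`: a deep E triple over `X` and a word of a right window `c = q + 3 ≥ 4` meet only if `q ≥ 3` and either
`X = R()Q`, `F' = {cyc w1, cyc w2}`, words `1, 2, 3`, or `B` empty, `X = Q()S`, `F' = {cyc w18, cyc w11}`, words `18, 11, 14`.
Uniqueness: `X = R()Q` determines `R`, `q`; `X = Q()S` determines `S`, `q`; not both.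
-/

set_option autoImplicit false
set_option linter.all false

namespace Pool.OddHC

open Finset Equiv BinaryTree Pool.Agent.Work.MP_8f87b2_co HM

variable {k : ℕ} {F F' : Set (Cyc k)} {g g' : DG k} {d q q' : ℕ} {R B S X R' B' S' : BinaryTree Unit}

/-- **exact form**: a deep E triple over `X` and the word `i` of a right window, `q ≥ 1` -/
theorem HM.NodeM.ed_tri (h1 : HM.NodeM k q R B S) (w0 : OddHC.X k) (hq : 1 ≤ q) (ht : IsTri .nil X .nil F' g')
    (h2 : 2 ∉ cont X) (h3 : 3 ∉ cont X) {i : ℕ} (hi : i < 20) (hw : H1.wX R B S q w0 i ∈ g'.B) :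
    (3 ≤ q ∧ X = app R (.nil △ H1.ch (q + 1)) ∧ F' = {cyc (H1.wX R B S q w0 1), cyc (H1.wX R B S q w0 2)} ∧
      (i = 1 ∨ i = 2 ∨ i = 3)) ∨
    (3 ≤ q ∧ B = .nil ∧ X = app (H1.ch (q + 1)) (.nil △ S) ∧
      F' = {cyc (H1.wX R B S q w0 18), cyc (H1.wX R B S q w0 11)} ∧ (i = 11 ∨ i = 14 ∨ i = 18)) := by
  have hD := h1.dat
  have word : ∀ {i : ℕ}, i < 20 → (H1.wX R B S q w0 i).1 = H1.W R (H1.ch (q + 1)) B S i :=
    fun hi => H1.wX_eq hD h1.size w0 hi
  have e : H1.W R (H1.ch (q + 1)) B S i = X △ .nil ∨ H1.W R (H1.ch (q + 1)) B S i = app X (.nil △ .nil) ∨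
      H1.W R (H1.ch (q + 1)) B S i = .nil △ X := by
    rcases ht.words _ hw with e1 | ⟨_, e1 | e1⟩ <;> rw [word hi] at e1
    · exact Or.inl e1
    · exact Or.inr (Or.inl e1)
    · exact Or.inr (Or.inr e1)
  obtain ⟨b, c, hb, hc', rfl⟩ := tri_F ht
  rcases H1.W_deep h1.wd h2 h3 hi e (fun h0 => absurd h0 (by omega)) with ⟨hq3, h, hi'⟩ | ⟨hq3, hB, h, hi'⟩ | ⟨h0, _⟩
  · left
    have e1 : b = H1.wX R B S q w0 1 := by
      apply Subtype.ext
      rw [hb, word (by norm_num), h]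
      simp only [w1, H1.W, H1.app_assoc, app, H1.app_nil]
    have e2 : c = H1.wX R B S q w0 2 := by
      apply Subtype.ext
      rw [hc', word (by norm_num), h]
      simp only [w1, H1.W, H1.app_assoc, app, H1.app_nil]
    exact ⟨hq3, h, by rw [e1, e2], hi'⟩
  · right
    have e1 : b = H1.wX R B S q w0 18 := by
      apply Subtype.ext
      rw [hb, word (by norm_num), h, hB]
      simp only [w1, H1.W, H1.app_assoc, app, H1.app_nil]
    have e2 : c = H1.wX R B S q w0 11 := by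
      apply Subtype.ext
      rw [hc', word (by norm_num), h, hB]
      rfl
    exact ⟨hq3, hB, h, by rw [e1, e2], hi'⟩
  · exact absurd h0 (by omega)

/-- the word 11 is on the T-cycle of the word 1 -/
theorem HM.NodeM.cyc11 (h1 : HM.NodeM k q R B S) (w0 : OddHC.X k) :
    cyc (H1.wX R B S q w0 11) = cyc (H1.wX R B S q w0 1) := by
  rw [← H1.wX_link h1.dat h1.size w0 (i := 1) (j := 11) (by simp)]
  have e : ∀ x : OddHC.X k, cyc (TT x) = cyc x := fun x => cyc_eq.2 ⟨-1, by simp⟩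
  rw [e, e]

/-- **exact form, type Ed** -/
theorem HM.NodeM.ed_hit (h1 : HM.NodeM k q R B S) (w0 : OddHC.X k) (hq : 1 ≤ q) (h' : TyEd F' g')
    {i : ℕ} (hi : i < 20) (hw : H1.wX R B S q w0 i ∈ g'.B) :
    (3 ≤ q ∧ IsTri .nil (app R (.nil △ H1.ch (q + 1))) .nil F' g' ∧
      F' = {cyc (H1.wX R B S q w0 1), cyc (H1.wX R B S q w0 2)} ∧ (i = 1 ∨ i = 2 ∨ i = 3)) ∨
    (3 ≤ q ∧ B = .nil ∧ IsTri .nil (app (H1.ch (q + 1)) (.nil △ S)) .nil F' g' ∧
      F' = {cyc (H1.wX R B S q w0 11), cyc (H1.wX R B S q w0 18)} ∧ (i = 11 ∨ i = 14 ∨ i = 18)) := by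
  obtain ⟨X, hX, h2, h3, ht⟩ := h'.data3
  rcases h1.ed_tri w0 hq ht h2 h3 hi hw with ⟨a1, a2, a3, a4⟩ | ⟨a1, a2, a3, a4, a5⟩
  · subst a2
    exact Or.inl ⟨a1, ht, a3, a4⟩
  · subst a3
    exact Or.inr ⟨a1, a2, ht, by rw [a4, Set.pair_comm], a5⟩

/-- no common word with a right window unless the pair is `{cyc w1, cyc w2}` or, `B` empty, `{cyc w11, cyc w18}` -/
theorem HM.NodeM.rdisj_Ed_of (h1 : HM.NodeM k q R B S) (w0 : OddHC.X k) (hq : 1 ≤ q) (h' : TyEd F' g')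
    (c1 : 3 ≤ q → F' ≠ {cyc (H1.wX R B S q w0 1), cyc (H1.wX R B S q w0 2)})
    (c2 : 3 ≤ q → B = .nil → F' ≠ {cyc (H1.wX R B S q w0 11), cyc (H1.wX R B S q w0 18)}) :
    ∀ i < 20, H1.wX R B S q w0 i ∉ g'.B := by
  intro i hi hw
  rcases h1.ed_hit w0 hq h' hi hw with ⟨a1, _, a2, _⟩ | ⟨a1, a2, _, a3, _⟩
  · exact c1 a1 a2
  · exact c2 a1 a2 a3

/-! ### Uniqueness -/

theorem fst_app29 {P Q A Y : BinaryTree Unit} (hP : P ≠ .nil) (e : app P Q = A △ Y) :
    ∃ P', P = A △ P' ∧ Y = app P' Q := by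
  cases P with
  | nil => exact absurd rfl hP
  | node _ C D =>
    change C △ app D Q = A △ Y at e
    obtain ⟨rfl, rfl⟩ := H1.node_inj e
    exact ⟨D, rfl, rfl⟩

/-- `R()[q+1]` determines `R` and `q` -/
theorem app_bead_ch_inj (e : app R (.nil △ H1.ch (q + 1)) = app R' (.nil △ H1.ch (q' + 1))) : R = R' ∧ q = q' := by
  have e1 : app (app R (.nil △ .nil)) (H1.ch q △ .nil) = app (app R' (.nil △ .nil)) (H1.ch q' △ .nil) := by
    rw [H1.app_assoc, H1.app_assoc]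
    exact e
  obtain ⟨e2, e3⟩ := H1.app_snoc e1
  exact ⟨(H1.app_snoc e2).1, H1.ch_inj e3⟩

/-- `[q+1]()S` determines `S` and `q` -/
theorem ch_bead_inj (e : app (H1.ch (q + 1)) (.nil △ S) = app (H1.ch (q' + 1)) (.nil △ S')) : S = S' ∧ q = q' := by
  have e1 : H1.ch q △ (.nil △ S) = H1.ch q' △ (.nil △ S') := e
  obtain ⟨e2, e3⟩ := H1.node_inj e1
  exact ⟨(H1.node_inj e3).2, H1.ch_inj e2⟩

/-- `R()[q+1] = [q'+1]()S'` is impossible for two nodes -/
theorem HM.NodeM.no_both (h : HM.NodeM k q R B S) (h' : HM.NodeM k q' R' B' S')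
    (e : app R (.nil △ H1.ch (q + 1)) = app (H1.ch (q' + 1)) (.nil △ S')) : False := by
  have e1 : app R (.nil △ H1.ch (q + 1)) = H1.ch q' △ (.nil △ S') := e
  obtain ⟨P', e2, e3⟩ := fst_app29 h.ne e1
  by_cases hP : P' = .nil
  · subst hP
    have e4 : BinaryTree.nil △ S' = .nil △ H1.ch (q + 1) := e3
    have e5 := (H1.node_inj e4).2
    have h5 : q' + 1 ∈ cont R := by
      have e6 : R = H1.ch (q' + 1) := e2
      rw [e6, H1.ch_cont]
      exact Multiset.mem_singleton_self _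
    have h6 := h.part _ h5
    have h7 : q + 1 ∈ cont R' := by
      rw [← h'.eq, Multiset.mem_add]
      right
      rw [e5, H1.ch_cont]
      exact Multiset.mem_singleton_self _
    have h8 := h'.part _ h7
    omega
  · obtain ⟨P'', e4, _⟩ := fst_app29 hP e3.symm
    have hR := H1.hv_of_parts (t := R) fun x hx => by have := h.part x hx; omega
    rw [e2, e4] at hR
    rcases hR.2.1 with h5 | h5
    · exact absurd h5 (by simp)
    · exact h5.1 rfl

/-- one deep E triple meets at most one of the right windows (unmerged), through words `1, 2, 3` -/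
theorem HM.NodeM.ed_unique (h : HM.NodeM k q R B S) (h' : HM.NodeM k q' R' B' S') (w0 w0' : OddHC.X k)
    (hq : 1 ≤ q) (hq' : 1 ≤ q') (ht : IsTri .nil X .nil F' g') (h2 : 2 ∉ cont X) (h3 : 3 ∉ cont X)
    {i j : ℕ} (hi : i < 20) (hj : j < 20) (hw : H1.wX R B S q w0 i ∈ g'.B)
    (hw' : H1.wX R' B' S' q' w0' j ∈ g'.B) : q = q' ∧ R = R' ∨ q = q' ∧ B = .nil ∧ B' = .nil ∧ S = S' := by
  rcases h.ed_tri w0 hq ht h2 h3 hi hw with ⟨_, a2, _, _⟩ | ⟨_, a1, a2, _, _⟩ <;>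
    rcases h'.ed_tri w0' hq' ht h2 h3 hj hw' with ⟨_, b2, _, _⟩ | ⟨_, b1, b2, _, _⟩
  · obtain ⟨e1, e2⟩ := app_bead_ch_inj (a2.symm.trans b2)
    exact Or.inl ⟨e2, e1⟩
  · exact (h.no_both h' (a2.symm.trans b2)).elim
  · exact (h'.no_both h (b2.symm.trans a2)).elim
  · obtain ⟨e1, e2⟩ := ch_bead_inj (a2.symm.trans b2)
    exact Or.inr ⟨e2, a1, b1, e1⟩

end Pool.OddHC
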