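import Pool.Agent.Work.MP_8f87b2_h29.KmRows

/-!
# T words against the K' words of the hosts `()(U)` with `U = ((C)(()))()`
-/

set_option autoImplicit false
set_option linter.all false

namespace Pool.OddHC

open Finset Equiv BinaryTree Pool.Agent.Work.MP_8f87b2_co

variable {k : ℕ} {F F' : Set (Cyc k)} {g g' : DG k} {U S : BinaryTree Unit}

/-- `U = X()` with `X` of two components, the last one `(())` -/
def KmU (U : BinaryTree Unit) : Prop :=
  ∃ C, U = (C △ ((.nil △ .nil) △ .nil)) △ (.nil △ .nil)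

theorem kmU_ch (n : ℕ) : KmU (app (H1.ch (n + 1)) (H1.ch 2) △ lp 1) :=
  ⟨H1.ch n, rfl⟩

namespace H1

variable {b m a : ℕ}

theorem th_bead {b : ℕ} {X : BinaryTree Unit} (h : th b .nil = .nil △ X) : False := by
  cases b with
  | zero => cases h
  | succ b => exact absurd (node_inj h).1 (by simp)

theorem t3_KmhU (hm : 1 ≤ m) {i : ℕ} (hi : i < 20) (hU : KmU U)
    (e : w3 b m a i = .nil △ (U △ .nil)) : False := by
  obtain ⟨m, rfl⟩ : ∃ m', m = m' + 1 := ⟨m - 1, by omega⟩
  obtain ⟨C, rfl⟩ := hU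
  obtain ⟨X, hX⟩ : ∃ X, X = C △ ((BinaryTree.nil △ .nil) △ .nil) := ⟨_, rfl⟩
  rw [← hX] at e
  have hXn : X ≠ .nil := by rw [hX]; simp
  rw [w3_fw b _ a i hi] at e
  have key : X △ (.nil △ .nil) = .nil △ (t3G (m + 1) a △ th b .nil) ∨
      X △ (.nil △ .nil) = S3 (m + 1) a △ th b .nil ∨ X △ (.nil △ .nil) = .nil △ .nil := by
    interval_cases i <;> rcases b with _ | _ | b <;>
      simp [fw3, th, app, L3_m, t3G, app_eq_nil, S3] at e ⊢ <;>
      first
        | exact Or.inl e.symm
        | exact Or.inr (Or.inl e.symm)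
        | exact Or.inr (Or.inr e.symm)
        | exact (e : False).elim
        | simp_all
  rcases key with h | h | h
  · exact hXn (node_inj h).1
  · exact th_bead (node_inj h).2.symm
  · exact hXn (node_inj h).1

theorem t3_KmtU (hm : 1 ≤ m) {i : ℕ} (hi : i < 20) (hU : KmU U)
    (e : w3 b m a i = (.nil △ .nil) △ U) : False := by
  obtain ⟨m, rfl⟩ : ∃ m', m = m' + 1 := ⟨m - 1, by omega⟩
  obtain ⟨C, rfl⟩ := hU
  obtain ⟨X, hX⟩ : ∃ X, X = C △ ((BinaryTree.nil △ .nil) △ .nil) := ⟨_, rfl⟩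
  rw [← hX] at e
  have hXn : X ≠ .nil := by rw [hX]; simp
  rw [w3_fw b _ a i hi] at e
  have key : X △ (.nil △ .nil) = .nil △ (t3G (m + 1) a △ th b .nil) ∨
      X △ (.nil △ .nil) = S3 (m + 1) a △ th b .nil := by
    interval_cases i <;> rcases b with _ | _ | b <;>
      simp [fw3, th, app, L3_m, t3G, app_eq_nil, S3] at e ⊢ <;>
      first
        | exact Or.inl e.symm
        | exact Or.inr e.symm
        | exact (e : False).elim
        | simp_all
  rcases key with h | h
  · exact hXn (node_inj h).1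
  · exact th_bead (node_inj h).2.symm

/-- new `U()()` -/
theorem t3_KmrU (hm : 1 ≤ m) (ha : 1 ≤ a) {i : ℕ} (hi : i < 20) (hU : KmU U)
    (e : w3 b m a i = app U (.nil △ (.nil △ .nil))) : False := by
  obtain ⟨C, rfl⟩ := hU
  obtain ⟨X, hX⟩ : ∃ X, X = C △ ((BinaryTree.nil △ .nil) △ .nil) := ⟨_, rfl⟩
  rw [← hX] at e
  have hXn : X ≠ .nil := by rw [hX]; simp
  have e2 := congrArg t3rv e
  rw [rv_w3 b m _ i hi] at e2
  have e3 : rw3 b m a i = .nil △ (.nil △ (.nil △ (X △ .nil))) := e2
  obtain ⟨a, rfl⟩ : ∃ a', a = a' + 1 := ⟨a - 1, by omega⟩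
  have hs : ∃ Z, t3rv (S3 m (a + 1)) = (.nil △ .nil) △ Z := ⟨_, by rw [rv_S3]; rfl⟩
  obtain ⟨Z, hZ⟩ := hs
  have key : t3rv (R3 b m (a + 1)) = X △ .nil := by
    interval_cases i
    · exact absurd (node_inj e3).1 (by simp)
    · have e4 : BinaryTree.nil △ (.nil △ (.nil △ t3rv (R3 b m (a + 1)))) =
        .nil △ (.nil △ (.nil △ (X △ .nil))) := e3
      exact (node_inj (node_inj (node_inj e4).2).2).2
    · exfalso
      have e4 : BinaryTree.nil △ (.nil △ app (t3rv (R3 b m (a + 1))) (.nil △ .nil)) =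
        .nil △ (.nil △ (.nil △ (X △ .nil))) := e3
      have e5 := (node_inj (node_inj e4).2).2
      rw [rv_R3] at e5
      cases b <;> exact absurd (node_inj e5).1 (by simp [t3G])
    · exact absurd (node_inj e3).1 (app_ne (by simp))
    · exfalso
      have e4 : app (t3rv (R3 b m (a + 1))) ((.nil △ (.nil △ .nil)) △ .nil) =
        .nil △ (.nil △ (.nil △ (X △ .nil))) := e3
      rw [rv_R3] at e4
      cases b <;> exact absurd (node_inj e4).1 (by simp [t3G])
    · exfalso
      have e4 : app (t3rv (R3 b m (a + 1))) (.nil △ ((.nil △ .nil) △ .nil)) =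
        .nil △ (.nil △ (.nil △ (X △ .nil))) := e3
      rw [rv_R3] at e4
      cases b <;> exact absurd (node_inj e4).1 (by simp [t3G])
    · exact absurd (node_inj e3).1 (by simp)
    · exact absurd (node_inj e3).1 (by simp)
    · exact absurd (node_inj e3).1 (by simp [R3])
    · have e4 : BinaryTree.nil △ ((R3 b m (a + 1) △ .nil) △ .nil) =
        .nil △ (.nil △ (.nil △ (X △ .nil))) := e3
      exact absurd (node_inj (node_inj e4).2).1 (by simp)
    · exfalso
      have e4 : app (t3rv (S3 m (a + 1))) (((.nil △ .nil) △ .nil) △ th b .nil) =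
        .nil △ (.nil △ (.nil △ (X △ .nil))) := e3
      rw [hZ] at e4
      exact absurd (node_inj e4).1 (by simp)
    · exfalso
      have e4 : app (t3rv (S3 m (a + 1))) (.nil △ (.nil △ (.nil △ th b .nil))) =
        .nil △ (.nil △ (.nil △ (X △ .nil))) := e3
      rw [hZ] at e4
      exact absurd (node_inj e4).1 (by simp)
    · exfalso
      have e4 : BinaryTree.nil △ (.nil △ app (th b .nil) (S3 m (a + 1) △ .nil)) =
        .nil △ (.nil △ (.nil △ (X △ .nil))) := e3
      have e5 := (node_inj (node_inj e4).2).2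
      cases b <;> exact absurd (node_inj e5).1 (by simp [S3])
    · exact absurd (node_inj e3).1 (app_ne (by simp))
    · exfalso
      have e4 : app (th b .nil) ((.nil △ (.nil △ S3 m (a + 1))) △ .nil) =
        .nil △ (.nil △ (.nil △ (X △ .nil))) := e3
      cases b <;> exact absurd (node_inj e4).1 (by simp)
    · exfalso
      have e4 : app (th b .nil) (S3 m (a + 1) △ ((.nil △ .nil) △ .nil)) =
        .nil △ (.nil △ (.nil △ (X △ .nil))) := e3
      cases b <;> exact absurd (node_inj e4).1 (by simp [S3])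
    · exact absurd (node_inj e3).1 (by simp)
    · exact absurd (node_inj e3).1 (by simp)
    · exfalso
      have e4 : th b .nil △ app (t3rv (S3 m (a + 1))) (.nil △ (.nil △ .nil)) =
        .nil △ (.nil △ (.nil △ (X △ .nil))) := e3
      have e5 := (node_inj e4).2
      rw [hZ] at e5
      exact absurd (node_inj e5).1 (by simp)
    · have e4 : BinaryTree.nil △ (app (S3 m (a + 1)) (th b .nil △ .nil) △ .nil) =
        .nil △ (.nil △ (.nil △ (X △ .nil))) := e3
      exact absurd (node_inj (node_inj e4).2).1 (app_ne (by simp))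
  rw [rv_R3] at key
  obtain ⟨m, rfl⟩ : ∃ m', m = m' + 1 := ⟨m - 1, by omega⟩
  cases b with
  | zero =>
    have h1 : t3G (m + 1) (a + 1) = X := (node_inj key).1
    rw [hX] at h1
    unfold t3G at h1
    have h2 := (node_inj h1).2
    rw [L3_m] at h2
    exact absurd (node_inj h2).1.symm (by simp)
  | succ b => exact absurd (node_inj key).2 (app_ne (by simp))

end H1

/-- **T - K'**, the hosts `U = ((C)(()))()` -/
theorem TyT.disj_KmU (h : TyT F g) (hU : KmU U) (h' : TyK' U F' g') : ∀ w ∈ g.B, w ∉ g'.B := by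
  intro w hw hw'
  obtain ⟨b, m, a, i, h1, hi, e1⟩ := h.word hw
  rcases h'.words w hw' with e2 | ⟨_, e2 | e2⟩
  · exact H1.t3_KmhU h1.mpos hi hU (e1.symm.trans e2)
  · exact H1.t3_KmrU h1.mpos h1.pos hi hU (e1.symm.trans e2)
  · exact H1.t3_KmtU h1.mpos hi hU (e1.symm.trans e2)

end Pool.OddHC
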